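import Pool.Agent.Lib.MP_a52643_an.QS.Dong

/-!
The contact set has definite area; a covering lemma.
-/

namespace Pool.Agent.Lib.MP_a52643_an.QS

open Complex Filter Topology Metric MeasureTheory Set
open scoped ContDiff

variable {q : ℂ → ℝ} {b r : ℝ} {x y z₀ : ℂ}

theorem det_eq (T : ℂ →L[ℝ] ℂ) : T.det = (T 1).re * (T I).im - (T I).re * (T 1).im := by
  rw [ContinuousLinearMap.det, ← LinearMap.det_toMatrix basisOneI, Matrix.det_fin_two]
  simp [LinearMap.toMatrix_apply]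

theorem DD_lin (hq : Sm q) (e y : ℂ) : D e (D e q) y = e.re ^ 2 * D 1 (D 1 q) y +
    2 * e.re * e.im * D 1 (D I q) y + e.im ^ 2 * D I (D I q) y := by
  have h1 := smD hq 1
  have h2 := smD hq I
  rw [D_lin (D e q), show D e q = fun s => e.re * D 1 q s + e.im * D I q s from
    funext fun s => D_lin q e s]
  simp (disch := fun_prop) only [D_add, D_cmul]
  rw [D_comm hq I 1]
  ring

/-- `y` is a contact point for the vertex `x`. -/
def Con (q : ℂ → ℝ) (b : ℝ) (z₀ : ℂ) (r : ℝ) (y x : ℂ) : Prop :=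
  ‖x - z₀‖ ≤ r / 8 ∧ ‖y - z₀‖ ≤ r ∧ ∀ z, ‖z - z₀‖ ≤ r →
    q z * Real.exp (-b * ‖z - x‖ ^ 2) ≤ q y * Real.exp (-b * ‖y - x‖ ^ 2)

theorem Con.near (h : Con q b z₀ r y x) (hb : 0 < b) (hr : 0 < r) (h0 : 0 < q z₀)
    (hg : ∀ z, ‖z - z₀‖ ≤ r → q z ≤ Real.exp (b * r ^ 2 / 32) * q z₀) :
    0 < q y ∧ ‖y - x‖ ≤ r / 4 := by
  have h1 := h.2.2 z₀ (by simpa using hr.le)
  refine ⟨(mul_pos_iff_of_pos_right (Real.exp_pos _)).1
    ((mul_pos h0 (Real.exp_pos _)).trans_le h1), ?_⟩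
  have h2 := h1.trans (mul_le_mul_of_nonneg_right (hg y h.2.1) (Real.exp_pos _).le)
  rw [mul_right_comm, mul_comm, mul_le_mul_iff_left₀ h0, ← Real.exp_add, Real.exp_le_exp,
    norm_sub_rev] at h2
  have h3 := pow_le_pow_left₀ (norm_nonneg _) h.1 2
  refine abs_le_of_sq_le_sq' (le_of_mul_le_mul_left ?_ hb) (by linarith) |>.2
  nlinarith [mul_le_mul_of_nonneg_left h3 hb.le, mul_pos hb (pow_pos hr 2)]

theorem det_alg {A B E : ℝ} (h1 : 0 ≤ A) (h2 : 0 ≤ E) (h3 : 0 ≤ A + E + 2 * B)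
    (h4 : 0 ≤ A + E - 2 * B) (h5 : A + E ≤ 3) : |A * E - B * B| ≤ 9 / 4 := by
  rw [abs_le]
  constructor
  · nlinarith [mul_nonneg h1 h2, mul_nonneg h3 h4]
  · nlinarith [sq_nonneg (A - E), mul_self_nonneg B]

/-- The map from contact points to vertices. -/
noncomputable def Psi (q : ℂ → ℝ) (b : ℝ) (z : ℂ) : ℂ :=
  z - (2 * b)⁻¹ • ((D 1 q z / q z) • (1 : ℂ) + (D I q z / q z) • I)

theorem psi_at (hq : Sm q) (hb : 0 < b) (h0 : 0 < q y)
    (h : IsLocalMax (fun z => q z * Real.exp (-b * ‖z - x‖ ^ 2)) y)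
    (hD : -(2 * b) * q y ^ 2 ≤ q y * Lap q y - Gr q y) :
    Psi q b y = x ∧ ∃ T : ℂ →L[ℝ] ℂ, HasFDerivAt (Psi q b) T y ∧ |T.det| ≤ 9 / 4 := by
  obtain ⟨a1, a2⟩ := contact hq h 1
  obtain ⟨a3, a4⟩ := contact hq h I
  obtain ⟨-, a5⟩ := contact hq h (1 + I)
  obtain ⟨-, a6⟩ := contact hq h (1 - I)
  rw [DD_lin hq, D_lin q] at a5 a6
  simp only [one_re, one_im, I_re, I_im, add_re, add_im, sub_re, sub_im, mul_one, mul_zero,
    add_zero, zero_add, sub_zero, zero_sub] at a1 a2 a3 a4 a5 a6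
  have f1 : D 1 q y / q y = 2 * b * (y.re - x.re) := by rw [a1]; field_simp
  have f2 : D I q y / q y = 2 * b * (y.im - x.im) := by rw [a3]; field_simp
  have d : ∀ v, DifferentiableAt ℝ (fun z => D v q z / q z) y := fun v =>
    ((smD hq v).contDiffAt.div hq.contDiffAt h0.ne').differentiableAt (by simp)
  have e : ∀ v w, D w (fun z => D v q z / q z) y * q y + D v q y / q y * D w q y =
      D w (D v q) y := fun v w => by
    rw [← D_mul_at (d v) (dif hq y)]
    refine D_congr ?_ w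
    filter_upwards [hq.continuous.continuousAt.eventually_ne h0.ne'] with z hz
    exact div_mul_cancel₀ _ hz
  refine ⟨?_, _, (hasFDerivAt_id y).sub ((((d 1).hasFDerivAt.smul_const (1 : ℂ)).add
    ((d I).hasFDerivAt.smul_const I)).const_smul (2 * b)⁻¹), ?_⟩
  · rw [Psi, f1, f2]
    apply Complex.ext <;> simp <;> field_simp <;> ring
  have e11 := e 1 1
  have e12 := e 1 I
  have e21 := e I 1
  have e22 := e I I
  rw [D_comm hq I 1] at e12
  rw [f1] at e11 e12
  rw [f2] at e21 e22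
  simp only [Lap, Gr] at hD
  have g : D I (fun z => D 1 q z / q z) y = D 1 (fun z => D I q z / q z) y :=
    mul_right_cancel₀ h0.ne' (by rw [a3] at e12; rw [a1] at e21; linarith)
  have c0 : 0 < (2 * b)⁻¹ := by positivity
  have c1 : (2 * b)⁻¹ * (2 * b) = 1 := by field_simp
  rw [det_eq]
  simp only [ContinuousLinearMap.sub_apply, ContinuousLinearMap.id_apply,
    ContinuousLinearMap.smul_apply, ContinuousLinearMap.add_apply,
    ContinuousLinearMap.smulRight_apply, sub_re, sub_im, smul_re, smul_im, add_re, add_im, one_re,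
    one_im, I_re, I_im, smul_eq_mul, mul_one, mul_zero, add_zero, zero_add]
  change |(1 - (2 * b)⁻¹ * D 1 (fun z => D 1 q z / q z) y) *
    (1 - (2 * b)⁻¹ * D I (fun z => D I q z / q z) y) -
    (0 - (2 * b)⁻¹ * D I (fun z => D 1 q z / q z) y) *
    (0 - (2 * b)⁻¹ * D 1 (fun z => D I q z / q z) y)| ≤ _
  rw [g] at e12 ⊢
  generalize D 1 (fun z => D 1 q z / q z) y = A at *
  generalize D I (fun z => D I q z / q z) y = E at *
  generalize D 1 (fun z => D I q z / q z) y = B at *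
  have g1 : A ≤ 2 * b := le_of_mul_le_mul_right (by linarith) h0
  have g2 : E ≤ 2 * b := le_of_mul_le_mul_right (by linarith) h0
  have g3 : A + E + 2 * B ≤ 2 * (2 * b) := le_of_mul_le_mul_right (by linarith) h0
  have g4 : A + E - 2 * B ≤ 2 * (2 * b) := le_of_mul_le_mul_right (by linarith) h0
  have g5 : -(2 * b) ≤ A + E := le_of_mul_le_mul_right (by
    rw [← e11, ← e22, a1, a3] at hD
    linarith) (pow_pos h0 2)
  refine det_alg ?_ ?_ ?_ ?_ ?_
  · linarith [mul_le_mul_of_nonneg_left g1 c0.le]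
  · linarith [mul_le_mul_of_nonneg_left g2 c0.le]
  · linarith [mul_le_mul_of_nonneg_left g3 c0.le]
  · linarith [mul_le_mul_of_nonneg_left g4 c0.le]
  · linarith [mul_le_mul_of_nonneg_left g5 c0.le]

/-- The contact set has definite area. -/
theorem abp (hq : Sm q) (hb : 0 < b) (hr : 0 < r) (h0 : 0 < q z₀)
    (hg : ∀ z, ‖z - z₀‖ ≤ r → q z ≤ Real.exp (b * r ^ 2 / 32) * q z₀)
    (hD : ∀ z, ‖z - z₀‖ ≤ r → -(2 * b) * q z ^ 2 ≤ q z * Lap q z - Gr q z) :
    ENNReal.ofReal (r ^ 2 / 64) ≤ volume {y | ∃ x, Con q b z₀ r y x} := by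
  have cq := hq.continuous
  have hm : MeasurableSet {y | ∃ x, Con q b z₀ r y x} := by
    have h1 : IsClosed {p : ℂ × ℂ | Con q b z₀ r p.1 p.2} := by
      simp only [Con, setOf_and, setOf_forall]
      exact (isClosed_le (by fun_prop) (by fun_prop)).inter
        ((isClosed_le (by fun_prop) (by fun_prop)).inter (isClosed_iInter fun z =>
          isClosed_iInter fun _ => isClosed_le (by fun_prop) (by fun_prop)))
    have h2 := (((isCompact_closedBall z₀ r).prod
      (isCompact_closedBall z₀ (r / 8))).of_isClosed_subset h1 fun p hp =>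
        ⟨mem_closedBall_iff_norm.2 hp.2.1, mem_closedBall_iff_norm.2 hp.1⟩).image continuous_fst
    convert h2.measurableSet using 1
    ext y
    simp
  have key : ∀ y x, Con q b z₀ r y x → Psi q b y = x ∧
      ∃ T : ℂ →L[ℝ] ℂ, HasFDerivAt (Psi q b) T y ∧ |T.det| ≤ 9 / 4 := fun y x h => by
    obtain ⟨h1, h2⟩ := h.near hb hr h0 hg
    refine psi_at hq hb h1 ?_ (hD y h.2.1)
    have h3 : y ∈ ball z₀ r := mem_ball_iff_norm.2 (by
      linarith [norm_sub_le_norm_sub_add_norm_sub y x z₀, h.1])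
    filter_upwards [isOpen_ball.mem_nhds h3] with z hz
    exact h.2.2 z (mem_ball_iff_norm.1 hz).le
  have h1 : closedBall z₀ (r / 8) ⊆ Psi q b '' {y | ∃ x, Con q b z₀ r y x} := fun x hx => by
    obtain ⟨y, hy, hy'⟩ := (isCompact_closedBall z₀ r).exists_isMaxOn
      ⟨z₀, mem_closedBall_self hr.le⟩
      (f := fun z => q z * Real.exp (-b * ‖z - x‖ ^ 2)) (by fun_prop)
    have : Con q b z₀ r y x := ⟨mem_closedBall_iff_norm.1 hx, mem_closedBall_iff_norm.1 hy,
      fun z hz => hy' (mem_closedBall_iff_norm.2 hz)⟩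
    exact ⟨y, ⟨x, this⟩, (key y x this).1⟩
  have h2 := (measure_mono h1).trans (addHaar_image_le_lintegral_abs_det_fderiv volume hm
    (f' := fderiv ℝ (Psi q b)) fun y ⟨x, h⟩ =>
      (key y x h).2.choose_spec.1.differentiableAt.hasFDerivAt.hasFDerivWithinAt)
  have h3 := h2.trans (setLIntegral_mono' hm (g := fun _ => 3) fun y ⟨x, h⟩ => by
    obtain ⟨T, t1, t2⟩ := (key y x h).2
    rw [t1.fderiv, ← ENNReal.ofReal_ofNat]
    exact ENNReal.ofReal_le_ofReal (by linarith))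
  rw [setLIntegral_const, Complex.volume_closedBall, ← ENNReal.ofReal_pow (by linarith),
    mul_comm] at h3
  have h4 : (3 : ENNReal) ≤ NNReal.pi := by
    rw [← ENNReal.coe_ofNat, ENNReal.coe_le_coe, ← NNReal.coe_le_coe]
    exact Real.pi_gt_three.le
  rw [show r ^ 2 / 64 = (r / 8) ^ 2 by ring]
  exact (ENNReal.mul_le_mul_iff_right (by simp) (by simp)).1 ((mul_le_mul_left h4 _).trans h3)

theorem cover {S E : Set ℂ} (hS : MeasurableSet S) {η R : ℝ} (hη : 0 ≤ η)
    (h : ∀ y ∈ E, ∃ s, 0 < s ∧ s ≤ R ∧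
      ENNReal.ofReal (η * s ^ 2) ≤ volume (S ∩ closedBall y s)) :
    ENNReal.ofReal η * volume E ≤ 64 * volume S := by
  choose! s s0 s1 s2 using h
  obtain ⟨u, u1, u2, u3⟩ := Vitali.exists_disjoint_subfamily_covering_enlargement_closedBall E
    (fun y => y) s R s1 4 (by norm_num)
  have hc : u.Countable := u2.countable_of_nonempty_interior fun y hy =>
    ⟨y, mem_interior_iff_mem_nhds.2 (closedBall_mem_nhds y (s0 y (u1 hy)))⟩
  have h1 : volume E ≤ ∑' y : u, volume (closedBall (y : ℂ) (4 * s y)) :=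
    (measure_mono fun y hy => by
      obtain ⟨c, c1, c2⟩ := u3 y hy
      exact mem_biUnion c1 (c2 (mem_closedBall_self (s0 y hy).le))).trans
      (measure_biUnion_le volume hc fun y => closedBall y (4 * s y))
  have h2 : ∑' y : u, volume (S ∩ closedBall (y : ℂ) (s y)) ≤ volume S := by
    rw [← measure_biUnion hc (f := fun y => S ∩ closedBall y (s y))
      (u2.mono fun _ => inter_subset_right) fun _ _ => hS.inter measurableSet_closedBall]
    exact measure_mono (iUnion₂_subset fun _ _ => inter_subset_left)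
  refine (mul_le_mul_right h1 _).trans (le_trans ?_ (mul_le_mul_right h2 _))
  rw [← ENNReal.tsum_mul_left, ← ENNReal.tsum_mul_left]
  refine ENNReal.tsum_le_tsum fun y => le_trans ?_ (mul_le_mul_right (s2 y (u1 y.2)) _)
  have := s0 y (u1 y.2)
  rw [Complex.volume_closedBall, ← ENNReal.ofReal_pow (by linarith), ← ENNReal.ofReal_coe_nnreal,
    ← ENNReal.ofReal_mul (by positivity), ← ENNReal.ofReal_mul hη, ← ENNReal.ofReal_ofNat 64,
    ← ENNReal.ofReal_mul (by norm_num)]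
  refine ENNReal.ofReal_le_ofReal ?_
  rw [NNReal.coe_real_pi]
  nlinarith [mul_le_mul_of_nonneg_left Real.pi_le_four (mul_nonneg hη (sq_nonneg (s y)))]

end Pool.Agent.Lib.MP_a52643_an.QS
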