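import Mathlib

open Set Filter Topology Metric

namespace Pool.Agent.Lib.MP_a52643_an.QSLoc

/-- second derivative test, one variable -/
theorem loc_second {F F1 : ℝ → ℝ} {F2 : ℝ} (hmax : IsLocalMax F 0)
    (h1 : ∀ᶠ s in 𝓝 (0:ℝ), HasDerivAt F (F1 s) s) (h2 : HasDerivAt F1 F2 0) : F2 ≤ 0 := by
  by_contra hpos
  push Not at hpos
  have hd : deriv F =ᶠ[𝓝 0] F1 := h1.mono fun s hs => hs.deriv
  have hdd : deriv (deriv F) 0 = F2 := by rw [hd.deriv_eq]; exact h2.deriv
  have h0 : HasDerivAt F (F1 0) 0 := h1.self_of_nhds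
  have hmin : IsLocalMin F 0 :=
    isLocalMin_of_deriv_deriv_pos (by rw [hdd]; exact hpos) hmax.deriv_eq_zero h0.continuousAt
  have hc : F =ᶠ[𝓝 0] fun _ => F 0 := by
    filter_upwards [hmax, hmin] with s h h' using le_antisymm h h'
  have hc1 : deriv F =ᶠ[𝓝 0] fun _ => (0:ℝ) := by
    have := hc.deriv
    filter_upwards [this] with s hs
    rw [hs]; simp
  have : deriv (deriv F) 0 = 0 := by rw [hc1.deriv_eq]; simp
  rw [hdd] at this; linarith

theorem loc_line {f f1 : ℝ → ℝ} {f2 c α a b : ℝ} (hf0 : 0 < f 0)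
    (h1 : ∀ᶠ s in 𝓝 (0:ℝ), HasDerivAt f (f1 s) s) (h2 : HasDerivAt f1 f2 0)
    (hmax : IsLocalMax (fun s => Real.log (f s) + c * Real.exp (-α * ((a + s) ^ 2 + b ^ 2))) 0) :
    (f 0 * f2 - f1 0 ^ 2) / f 0 ^ 2
      + c * (4 * α ^ 2 * a ^ 2 - 2 * α) * Real.exp (-α * (a ^ 2 + b ^ 2)) ≤ 0 := by
  have h0 : HasDerivAt f (f1 0) 0 := h1.self_of_nhds
  have hpos : ∀ᶠ s in 𝓝 (0:ℝ), 0 < f s := h0.continuousAt.eventually (lt_mem_nhds hf0)
  have hE : ∀ s : ℝ, HasDerivAt (fun s : ℝ => Real.exp (-α * ((a + s) ^ 2 + b ^ 2)))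
      (Real.exp (-α * ((a + s) ^ 2 + b ^ 2)) * (-α * (2 * (a + s)))) s := by
    intro s
    have : HasDerivAt (fun s : ℝ => -α * ((a + s) ^ 2 + b ^ 2)) (-α * (2 * (a + s))) s := by
      have h := ((((hasDerivAt_id' s).const_add a).fun_pow 2).add_const (b ^ 2)).const_mul (-α)
      refine h.congr_deriv ?_
      simp
    exact this.exp
  have key := loc_second (F1 := fun s => f1 s / f s
      + c * (Real.exp (-α * ((a + s) ^ 2 + b ^ 2)) * (-α * (2 * (a + s)))))
      (F2 := (f2 * f 0 - f1 0 * f1 0) / f 0 ^ 2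
      + c * (Real.exp (-α * ((a + 0) ^ 2 + b ^ 2)) * (-α * (2 * (a + 0))) * (-α * (2 * (a + 0)))
        + Real.exp (-α * ((a + 0) ^ 2 + b ^ 2)) * (-α * 2))) hmax ?_ ?_
  · simp only [add_zero] at key
    have e : (f 0 * f2 - f1 0 ^ 2) / f 0 ^ 2
      + c * (4 * α ^ 2 * a ^ 2 - 2 * α) * Real.exp (-α * (a ^ 2 + b ^ 2)) =
      (f2 * f 0 - f1 0 * f1 0) / f 0 ^ 2
      + c * (Real.exp (-α * (a ^ 2 + b ^ 2)) * (-α * (2 * a)) * (-α * (2 * a))
        + Real.exp (-α * (a ^ 2 + b ^ 2)) * (-α * 2)) := by ring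
    rw [e]; exact key
  · filter_upwards [h1, hpos] with s hs hp
    exact (hs.log hp.ne').add ((hE s).const_mul c)
  · refine (h2.div h0 hf0.ne').add (HasDerivAt.const_mul c ?_)
    have hl : HasDerivAt (fun s : ℝ => -α * (2 * (a + s))) (-α * 2) 0 := by
      have h := (((hasDerivAt_id' (0:ℝ)).const_add a).const_mul 2).const_mul (-α)
      refine h.congr_deriv ?_
      simp
    exact (hE 0).mul hl

/-- derivatives of a `C^2` function along a line -/
theorem loc_dir {q : ℂ → ℝ} {w : ℂ} (hq : ContDiffAt ℝ 2 q w) (e : ℂ) :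
    (∀ᶠ s : ℝ in 𝓝 (0:ℝ), HasDerivAt (fun s : ℝ => q (w + s * e)) (fderiv ℝ q (w + s * e) e) s) ∧
    HasDerivAt (fun s : ℝ => fderiv ℝ q (w + s * e) e)
      (fderiv ℝ (fun z => fderiv ℝ q z e) w e) 0 := by
  have hl : ∀ s : ℝ, HasDerivAt (fun s : ℝ => w + s * e) e s := by
    intro s
    have := ((Complex.ofRealCLM.hasDerivAt (x := s)).mul_const e).const_add w
    simpa using this
  have hc : Tendsto (fun s : ℝ => w + s * e) (𝓝 0) (𝓝 w) := by
    have := (hl 0).continuousAt.tendsto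
    simpa using this
  constructor
  · have hev : ∀ᶠ z in 𝓝 w, ContDiffAt ℝ 2 q z := hq.eventually (by simp)
    filter_upwards [hc.eventually hev] with s hs
    exact (hs.differentiableAt (by simp)).hasFDerivAt.comp_hasDerivAt s (hl s)
  · have h1 : ContDiffAt ℝ 1 (fderiv ℝ q) w := hq.fderiv_right (by norm_num)
    have h2 : DifferentiableAt ℝ (fun z => fderiv ℝ q z e) w :=
      (h1.differentiableAt (by simp)).clm_apply (differentiableAt_const e)
    have h3 : HasFDerivAt (fun z => fderiv ℝ q z e) (fderiv ℝ (fun z => fderiv ℝ q z e) w)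
        (w + ((0:ℝ):ℂ) * e) := by simpa using h2.hasFDerivAt
    exact h3.comp_hasDerivAt (0:ℝ) (hl 0)

/-- Propagation of size towards the centre of a disc, for `q ≥ 0` with `Δ log q ≥ -K`. -/
theorem barrier {ρ t R : ℝ} (hρ : 0 < ρ) (hρt : ρ ≤ t) (htR : t < R) :
    ∃ B : ℝ, 1 ≤ B ∧ ∀ (y : ℂ) (q : ℂ → ℝ) (K A Q : ℝ), 0 ≤ K → 0 ≤ A →
      (∀ z ∈ closedBall y R, ContDiffAt ℝ 2 q z) → (∀ z ∈ closedBall y R, 0 ≤ q z) →
      (∀ z ∈ closedBall y R, -K * q z ^ 2 ≤
        q z * (fderiv ℝ (fun w => fderiv ℝ q w 1) z 1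
          + fderiv ℝ (fun w => fderiv ℝ q w Complex.I) z Complex.I)
        - (fderiv ℝ q z 1 ^ 2 + fderiv ℝ q z Complex.I ^ 2)) →
      (∀ z ∈ closedBall y R, q z ≤ Q) →
      (∃ z ∈ closedBall y t, Q ≤ Real.exp A * q z) →
      ∃ z ∈ closedBall y ρ, Q ≤ Real.exp (B * (A + K + 1)) * q z := by
  set α : ℝ := 2 / ρ ^ 2 with hα
  have hα0 : 0 < α := by positivity
  have ht0 : 0 < t := lt_of_lt_of_le hρ hρt
  set d1 : ℝ := Real.exp (-α * t ^ 2) - Real.exp (-α * R ^ 2) with hd1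
  set d2 : ℝ := 4 * α * Real.exp (-α * R ^ 2) with hd2
  have hd1p : 0 < d1 := by
    have : -α * R ^ 2 < -α * t ^ 2 := by
      have : t ^ 2 < R ^ 2 := by nlinarith
      nlinarith
    have := Real.exp_lt_exp.2 this
    linarith
  have hd2p : 0 < d2 := by positivity
  refine ⟨1 + 1 / d1 + 1 / d2, by have := one_div_pos.2 hd1p; have := one_div_pos.2 hd2p; linarith, ?_⟩
  intro y q K A Q hK hA hq hq0 hD hQ ⟨z0, hz0, hz0Q⟩
  have i1 := one_div_pos.2 hd1p
  have i2 := one_div_pos.2 hd2p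
  have hz0R : z0 ∈ closedBall y R := closedBall_subset_closedBall htR.le hz0
  by_cases hin : z0 ∈ closedBall y ρ
  · refine ⟨z0, hin, hz0Q.trans ?_⟩
    apply mul_le_mul_of_nonneg_right _ (hq0 z0 hz0R)
    apply Real.exp_le_exp.2
    nlinarith [mul_nonneg i1.le hA, mul_nonneg i2.le hA, mul_nonneg i1.le hK, mul_nonneg i2.le hK]
  by_cases hQ0 : Q ≤ 0
  · refine ⟨y, mem_closedBall_self hρ.le, hQ0.trans ?_⟩
    exact mul_nonneg (Real.exp_pos _).le (hq0 y (mem_closedBall_self (by linarith)))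
  push Not at hQ0
  set c : ℝ := (A + 1) / d1 + (K + 1) / d2 with hc
  have hc1 : 0 < (A + 1) / d1 := by positivity
  have hc2 : 0 < (K + 1) / d2 := by positivity
  have hc0 : 0 < c := by positivity
  have hcd1 : A < c * d1 := by
    have : c * d1 = (A + 1) + (K + 1) / d2 * d1 := by rw [hc]; field_simp
    have h2 := mul_pos hc2 hd1p
    linarith
  have hcd2 : K < c * d2 := by
    have : c * d2 = (A + 1) / d1 * d2 + (K + 1) := by rw [hc]; field_simp
    have h2 := mul_pos hc1 hd2p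
    linarith
  set g : ℂ → ℝ := fun z => c * Real.exp (-α * ‖z - y‖ ^ 2) with hg
  set S : Set ℂ := closedBall y R \ ball y ρ with hS
  have hSc : IsCompact S := (isCompact_closedBall y R).diff isOpen_ball
  have hz0S : z0 ∈ S := ⟨hz0R, fun h => hin (ball_subset_closedBall h)⟩
  have hgc : Continuous g := by rw [hg]; fun_prop
  have hFc : ContinuousOn (fun z => q z * Real.exp (g z)) S := by
    intro z hz
    exact ((hq z hz.1).continuousAt.mul (Real.continuous_exp.comp hgc).continuousAt).continuousWithinAt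
  obtain ⟨w, hwS, hw⟩ := hSc.exists_isMaxOn ⟨z0, hz0S⟩ hFc
  have hq0pos : 0 < q z0 := by
    by_contra h
    push Not at h
    have : Real.exp A * q z0 ≤ 0 := mul_nonpos_of_nonneg_of_nonpos (Real.exp_pos _).le h
    linarith
  have hwz : q z0 * Real.exp (g z0) ≤ q w * Real.exp (g w) := hw hz0S
  have hqw : 0 < q w := by
    have h1 : 0 < q z0 * Real.exp (g z0) := mul_pos hq0pos (Real.exp_pos _)
    have h2 : 0 < q w * Real.exp (g w) := lt_of_lt_of_le h1 hwz
    exact (mul_pos_iff_of_pos_right (Real.exp_pos _)).1 h2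
  have hgz0 : c * Real.exp (-α * t ^ 2) ≤ g z0 := by
    have h1 : ‖z0 - y‖ ≤ t := by simpa [dist_eq_norm] using hz0
    have h2 : ‖z0 - y‖ ^ 2 ≤ t ^ 2 := by nlinarith [norm_nonneg (z0 - y)]
    apply mul_le_mul_of_nonneg_left _ hc0.le
    apply Real.exp_le_exp.2; nlinarith
  have hwR : ‖w - y‖ ≤ R := by simpa [dist_eq_norm] using hwS.1
  have hwρ : ρ ≤ ‖w - y‖ := by
    have := hwS.2
    simpa [dist_eq_norm] using this
  -- the value at the maximum
  have hval : Q * Real.exp (c * Real.exp (-α * t ^ 2)) ≤ Real.exp A * (q w * Real.exp (g w)) := by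
    calc Q * Real.exp (c * Real.exp (-α * t ^ 2)) ≤ (Real.exp A * q z0) * Real.exp (g z0) :=
          mul_le_mul hz0Q (Real.exp_le_exp.2 hgz0) (Real.exp_pos _).le (by positivity)
      _ = Real.exp A * (q z0 * Real.exp (g z0)) := by ring
      _ ≤ _ := mul_le_mul_of_nonneg_left hwz (Real.exp_pos _).le
  rcases eq_or_lt_of_le hwR with hR | hR
  · exfalso
    have hgw : g w = c * Real.exp (-α * R ^ 2) := by simp only [hg]; rw [hR]
    have h1 : Real.exp A * (q w * Real.exp (g w)) ≤ Q * Real.exp (A + c * Real.exp (-α * R ^ 2)) := by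
      rw [hgw, Real.exp_add]
      have := hQ w hwS.1
      have e1 := Real.exp_pos A
      have e2 := Real.exp_pos (c * Real.exp (-α * R ^ 2))
      nlinarith [mul_pos e1 e2]
    have h2 : A + c * Real.exp (-α * R ^ 2) < c * Real.exp (-α * t ^ 2) := by
      have : c * d1 = c * Real.exp (-α * t ^ 2) - c * Real.exp (-α * R ^ 2) := by rw [hd1]; ring
      linarith
    have h3 := mul_lt_mul_of_pos_left (Real.exp_lt_exp.2 h2) hQ0
    linarith
  rcases eq_or_lt_of_le hwρ with hr | hr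
  · refine ⟨w, by simpa [dist_eq_norm] using hr.symm.le, ?_⟩
    have hgw : g w ≤ c := by
      have : Real.exp (-α * ‖w - y‖ ^ 2) ≤ 1 := by
        apply Real.exp_le_one_iff.2
        nlinarith [sq_nonneg ‖w - y‖]
      simp only [hg]; nlinarith
    have h1 : Q ≤ Q * Real.exp (c * Real.exp (-α * t ^ 2)) := by
      have : 1 ≤ Real.exp (c * Real.exp (-α * t ^ 2)) := Real.one_le_exp (by positivity)
      nlinarith
    have h2 : Real.exp A * (q w * Real.exp (g w)) = Real.exp (A + g w) * q w := by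
      rw [Real.exp_add]; ring
    have h3 : A + g w ≤ (1 + 1 / d1 + 1 / d2) * (A + K + 1) := by
      have e : c = (A + 1) * (1 / d1) + (K + 1) * (1 / d2) := by rw [hc]; ring
      nlinarith [mul_nonneg i1.le hA, mul_nonneg i2.le hA, mul_nonneg i1.le hK, mul_nonneg i2.le hK]
    calc Q ≤ _ := h1
      _ ≤ _ := hval
      _ = _ := h2
      _ ≤ _ := mul_le_mul_of_nonneg_right (Real.exp_le_exp.2 h3) hqw.le
  exfalso
  -- interior maximum
  have hSn : S ∈ 𝓝 w := by
    have h1 : ball y R ∈ 𝓝 w := isOpen_ball.mem_nhds (by simpa [dist_eq_norm] using hR)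
    have h2 : (closedBall y ρ)ᶜ ∈ 𝓝 w :=
      isClosed_closedBall.isOpen_compl.mem_nhds (by simpa [dist_eq_norm] using hr)
    filter_upwards [h1, h2] with z a b
    exact ⟨ball_subset_closedBall a, fun h => b (ball_subset_closedBall h)⟩
  have hqc : ContinuousAt q w := (hq w hwS.1).continuousAt
  have hlm : IsLocalMax (fun z => Real.log (q z) + g z) w := by
    filter_upwards [hSn, hqc.eventually (lt_mem_nhds hqw)] with z hz hp
    have h1 : q z * Real.exp (g z) ≤ q w * Real.exp (g w) := hw hz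
    have h2 := Real.log_le_log (by positivity) h1
    rw [Real.log_mul hp.ne' (Real.exp_pos _).ne', Real.log_mul hqw.ne' (Real.exp_pos _).ne',
      Real.log_exp, Real.log_exp] at h2
    exact h2
  have hline : ∀ e : ℂ, IsLocalMax (fun s : ℝ => Real.log (q (w + s * e)) + g (w + s * e)) 0 := by
    intro e
    have hcont : ContinuousAt (fun s : ℝ => w + s * e) 0 := by fun_prop
    have : IsLocalMax (fun z => Real.log (q z) + g z) (w + ((0:ℝ):ℂ) * e) := by simpa using hlm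
    exact IsLocalMax.comp_continuous (g := fun s : ℝ => w + s * e) (b := 0) this hcont
  set a : ℝ := (w - y).re
  set b : ℝ := (w - y).im
  have hab : ‖w - y‖ ^ 2 = a ^ 2 + b ^ 2 := by
    rw [Complex.sq_norm, Complex.normSq_apply]; ring
  obtain ⟨u1, u2⟩ := loc_dir (hq w hwS.1) 1
  obtain ⟨v1, v2⟩ := loc_dir (hq w hwS.1) Complex.I
  have m1 : IsLocalMax (fun s : ℝ => Real.log (q (w + s * 1))
      + c * Real.exp (-α * ((a + s) ^ 2 + b ^ 2))) 0 := by
    have e : ∀ s : ℝ, ‖w + s * 1 - y‖ ^ 2 = (a + s) ^ 2 + b ^ 2 := by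
      intro s
      rw [Complex.sq_norm, Complex.normSq_apply]; simp [a, b]; ring
    have := hline 1
    simp only [hg, e] at this
    exact this
  have m2 : IsLocalMax (fun s : ℝ => Real.log (q (w + s * Complex.I))
      + c * Real.exp (-α * ((b + s) ^ 2 + a ^ 2))) 0 := by
    have e : ∀ s : ℝ, ‖w + s * Complex.I - y‖ ^ 2 = (b + s) ^ 2 + a ^ 2 := by
      intro s
      rw [Complex.sq_norm, Complex.normSq_apply]; simp [a, b]; ring
    have := hline Complex.I
    simp only [hg, e] at this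
    exact this
  have k1 := loc_line (f := fun s : ℝ => q (w + s * 1)) (by simpa using hqw) u1 u2 m1
  have k2 := loc_line (f := fun s : ℝ => q (w + s * Complex.I)) (by simpa using hqw) v1 v2 m2
  simp only [Complex.ofReal_zero, zero_mul, add_zero] at k1 k2
  have hDw := hD w hwS.1
  have hq2 : 0 < q w ^ 2 := by positivity
  have hsum : -K ≤ (q w * fderiv ℝ (fun z => fderiv ℝ q z 1) w 1 - fderiv ℝ q w 1 ^ 2) / q w ^ 2
      + (q w * fderiv ℝ (fun z => fderiv ℝ q z Complex.I) w Complex.I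
        - fderiv ℝ q w Complex.I ^ 2) / q w ^ 2 := by
    rw [← add_div, le_div_iff₀ hq2]; linarith only [hDw]
  have hE : Real.exp (-α * R ^ 2) ≤ Real.exp (-α * (a ^ 2 + b ^ 2)) := by
    apply Real.exp_le_exp.2
    have : a ^ 2 + b ^ 2 ≤ R ^ 2 := by rw [← hab]; exact pow_le_pow_left₀ (norm_nonneg _) hwR 2
    have := mul_le_mul_of_nonneg_left this hα0.le
    linarith only [this]
  have hs : 2 ≤ α * (a ^ 2 + b ^ 2) := by
    have h1 : ρ ^ 2 ≤ a ^ 2 + b ^ 2 := by rw [← hab]; exact pow_le_pow_left₀ hρ.le hwρ 2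
    have h2 : α * ρ ^ 2 = 2 := by rw [hα]; field_simp
    rw [← h2]; exact mul_le_mul_of_nonneg_left h1 hα0.le
  rw [add_comm (b ^ 2) (a ^ 2)] at k2
  have hE0 := Real.exp_pos (-α * R ^ 2)
  have h4 : 4 * α ≤ (4 * α ^ 2 * a ^ 2 - 2 * α) + (4 * α ^ 2 * b ^ 2 - 2 * α) := by
    have := mul_le_mul_of_nonneg_left hs hα0.le
    nlinarith only [this]
  have h5 : c * d2 ≤ c * (4 * α ^ 2 * a ^ 2 - 2 * α) * Real.exp (-α * (a ^ 2 + b ^ 2))
      + c * (4 * α ^ 2 * b ^ 2 - 2 * α) * Real.exp (-α * (a ^ 2 + b ^ 2)) := by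
    have : 4 * α * Real.exp (-α * R ^ 2) ≤ ((4 * α ^ 2 * a ^ 2 - 2 * α) + (4 * α ^ 2 * b ^ 2 - 2 * α))
        * Real.exp (-α * (a ^ 2 + b ^ 2)) := mul_le_mul h4 hE hE0.le (by linarith only [h4, hα0])
    have := mul_le_mul_of_nonneg_left this hc0.le
    rw [hd2]; linarith only [this]
  linarith only [h5, hcd2, hsum, k1, k2]

/-- Chain of neighbourhoods on a compact connected space. -/
theorem chain {X ι : Type*} [TopologicalSpace X] [CompactSpace X] [PreconnectedSpace X]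
    (G : Set X → ℝ → ι → Prop)
    (hmono : ∀ N A A' i, A ≤ A' → G N A i → G N A' i)
    (hbase : ∀ i, ∃ x, ∀ N ∈ 𝓝 x, G N 0 i)
    (hloc : ∀ x0 : X, ∃ V ∈ 𝓝 x0, ∀ x ∈ V, ∀ y ∈ V, ∃ Nx ∈ 𝓝 x, ∀ Ny ∈ 𝓝 y, ∀ A : ℝ, ∃ A' : ℝ,
      ∀ i, G Nx A i → G Ny A' i) :
    ∀ y : X, ∀ N ∈ 𝓝 y, ∃ A : ℝ, ∀ i, G N A i := by
  set Rl : X → X → Prop := fun x y => ∃ Nx ∈ 𝓝 x, ∀ Ny ∈ 𝓝 y, ∀ A : ℝ, ∃ A' : ℝ,
      ∀ i, G Nx A i → G Ny A' i with hRl
  have htr : ∀ x y z, Rl x y → Rl y z → Rl x z := by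
    rintro x y z ⟨Nx, hNx, h1⟩ ⟨Ny, hNy, h2⟩
    refine ⟨Nx, hNx, fun Nz hNz A => ?_⟩
    obtain ⟨A1, hA1⟩ := h1 Ny hNy A
    obtain ⟨A2, hA2⟩ := h2 Nz hNz A1
    exact ⟨A2, fun i hi => hA2 i (hA1 i hi)⟩
  intro y N hN
  have hall : ∀ x, Rl x y := by
    have hclopen : IsClopen {x | Rl x y} := by
      constructor
      · rw [← isOpen_compl_iff, isOpen_iff_mem_nhds]
        intro x hx
        obtain ⟨V, hV, h⟩ := hloc x
        filter_upwards [hV] with x' hx' hR
        exact hx (htr _ _ _ (h x (mem_of_mem_nhds hV) x' hx') hR)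
      · rw [isOpen_iff_mem_nhds]
        intro x hx
        obtain ⟨V, hV, h⟩ := hloc x
        filter_upwards [hV] with x' hx'
        exact htr _ _ _ (h x' hx' x (mem_of_mem_nhds hV)) hx
    have hy : y ∈ {x | Rl x y} := by
      obtain ⟨V, hV, h⟩ := hloc y
      exact h y (mem_of_mem_nhds hV) y (mem_of_mem_nhds hV)
    have := hclopen.eq_univ ⟨y, hy⟩
    intro x
    have hx : x ∈ {x | Rl x y} := by rw [this]; trivial
    exact hx
  choose Nx hNx hh using hall
  choose A' hA' using fun x => hh x N hN 0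
  obtain ⟨T, -, hT⟩ := isCompact_univ.elim_nhds_subcover (fun x => interior (Nx x))
    (fun x _ => interior_mem_nhds.2 (hNx x))
  refine ⟨∑ x ∈ T, |A' x|, fun i => ?_⟩
  obtain ⟨x0, hx0⟩ := hbase i
  have : x0 ∈ ⋃ x ∈ T, interior (Nx x) := hT (mem_univ x0)
  simp only [mem_iUnion] at this
  obtain ⟨x, hxT, hx⟩ := this
  have h1 : G N (A' x) i := hA' x i (hx0 _ (mem_interior_iff_mem_nhds.1 hx))
  refine hmono _ _ _ _ ?_ h1
  exact (le_abs_self _).trans (Finset.single_le_sum (f := fun x => |A' x|)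
    (fun x _ => abs_nonneg _) hxT)

/-- Every neighbourhood of every point carries a point where `|φ|` is within `exp (A λ)` of its maximum. -/
theorem local_base {X ι : Type*} [TopologicalSpace X] [ChartedSpace ℂ X] [CompactSpace X]
    [PreconnectedSpace X] (φ : ι → X → ℝ) (lam : ι → ℝ) (hlam : ∀ i, 1 ≤ lam i)
    (hcont : ∀ i, Continuous (φ i))
    (H : ∀ x0 : X, ∃ r : ℝ, 0 < r ∧ closedBall (chartAt ℂ x0 x0) r ⊆ (chartAt ℂ x0).target ∧
      ∃ K : ℝ, 0 ≤ K ∧ ∀ ρ : ℝ, 0 < ρ → ∃ C : ℝ, 0 ≤ C ∧ ∀ i, ∃ q : ℂ → ℝ,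
        (∀ z ∈ closedBall (chartAt ℂ x0 x0) r, ContDiffAt ℝ 2 q z) ∧
        (∀ z ∈ closedBall (chartAt ℂ x0 x0) r, -(K * lam i) * q z ^ 2 ≤
          q z * (fderiv ℝ (fun w => fderiv ℝ q w 1) z 1
            + fderiv ℝ (fun w => fderiv ℝ q w Complex.I) z Complex.I)
          - (fderiv ℝ q z 1 ^ 2 + fderiv ℝ q z Complex.I ^ 2)) ∧
        (∀ z ∈ closedBall (chartAt ℂ x0 x0) r, φ i ((chartAt ℂ x0).symm z) ^ 2 ≤ 2 * q z) ∧
        (∀ z : ℂ, closedBall z ρ ⊆ closedBall (chartAt ℂ x0 x0) r → ∀ S : ℝ,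
          (∀ w ∈ closedBall z ρ, |φ i ((chartAt ℂ x0).symm w)| ≤ S) →
          q z ≤ Real.exp (C * lam i) * S ^ 2)) :
    ∀ y : X, ∀ N ∈ 𝓝 y, ∃ A : ℝ, ∀ i, ∃ z ∈ N, ∀ x, |φ i x| ≤ Real.exp (A * lam i) * |φ i z| := by
  intro y0
  have : Nonempty X := ⟨y0⟩
  refine chain (fun N A i => ∃ z ∈ N, ∀ x, |φ i x| ≤ Real.exp (A * lam i) * |φ i z|) ?_ ?_ ?_ y0
  · rintro N A A' i hA ⟨z, hz, h⟩
    refine ⟨z, hz, fun x => (h x).trans (mul_le_mul_of_nonneg_right ?_ (abs_nonneg _))⟩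
    exact Real.exp_le_exp.2 (mul_le_mul_of_nonneg_right hA (by linarith [hlam i]))
  · intro i
    obtain ⟨x, -, hx⟩ := isCompact_univ.exists_isMaxOn univ_nonempty (hcont i).abs.continuousOn
    exact ⟨x, fun N hN => ⟨x, mem_of_mem_nhds hN, fun x' => by simpa using hx (mem_univ x')⟩⟩
  intro x0
  obtain ⟨r, hr, hsub, K, hK, H⟩ := H x0
  set e := chartAt ℂ x0 with he
  set c : ℂ := e x0 with hc
  have hx0 : x0 ∈ e.source := mem_chart_source ℂ x0
  have hVo : IsOpen (e.source ∩ e ⁻¹' ball c (r / 8)) := e.isOpen_inter_preimage isOpen_ball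
  refine ⟨e.source ∩ e ⁻¹' ball c (r / 8), hVo.mem_nhds ⟨hx0, mem_ball_self (by positivity)⟩, ?_⟩
  intro x hx y hy
  refine ⟨_, hVo.mem_nhds hx, fun Ny hNy A => ?_⟩
  have hyc : dist (e y) c < r / 8 := hy.2
  have hpre : e.symm ⁻¹' Ny ∈ 𝓝 (e y) := by
    have h1 : ContinuousAt e.symm (e y) := e.continuousAt_symm (e.map_source hy.1)
    apply h1.preimage_mem_nhds
    rw [e.left_inv hy.1]; exact hNy
  obtain ⟨ε, hε, hεN⟩ := Metric.mem_nhds_iff.1 hpre
  set ρ : ℝ := min (ε / 4) (r / 8) with hρ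
  have hρ0 : 0 < ρ := lt_min (by positivity) (by positivity)
  have hρ1 : ρ ≤ ε / 4 := min_le_left _ _
  have hρ2 : ρ ≤ r / 8 := min_le_right _ _
  obtain ⟨B, hB1, hB⟩ := barrier (ρ := ρ) (t := r / 4) (R := r / 2) hρ0 (by linarith) (by linarith)
  obtain ⟨C, hC, HC⟩ := H ρ hρ0
  refine ⟨B * (C + 2 * |A| + K + 2), ?_⟩
  rintro i ⟨z1, hz1, h1⟩
  obtain ⟨q, hq, hD, hlow, hup⟩ := HC i
  have hl := hlam i
  have hsubR : ∀ z ∈ closedBall (e y) (r / 2), closedBall z ρ ⊆ closedBall c r := by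
    intro z hz w hw
    rw [mem_closedBall] at hz hw ⊢
    have := dist_triangle4 w z (e y) c
    linarith
  have hsubR' : ∀ z ∈ closedBall (e y) (r / 2), z ∈ closedBall c r :=
    fun z hz => hsubR z hz (mem_closedBall_self hρ0.le)
  set S : ℝ := Real.exp (|A| * lam i) * |φ i z1| with hS
  have hS1 : ∀ x, |φ i x| ≤ S := fun x => (h1 x).trans (mul_le_mul_of_nonneg_right
    (Real.exp_le_exp.2 (mul_le_mul_of_nonneg_right (le_abs_self A) (by linarith))) (abs_nonneg _))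
  have hz1c : dist (e z1) c < r / 8 := hz1.2
  have hA0 := abs_nonneg A
  obtain ⟨z, hz, hzQ⟩ := hB (e y) q (K * lam i) ((C + 2 * |A| + 1) * lam i)
    (Real.exp (C * lam i) * S ^ 2) (by positivity) (by positivity)
    (fun z hz => hq z (hsubR' z hz))
    (fun z hz => by nlinarith [hlow z (hsubR' z hz), sq_nonneg (φ i (e.symm z))])
    (fun z hz => hD z (hsubR' z hz))
    (fun z hz => hup z (hsubR z hz) S (fun w _ => hS1 _)) (by
      refine ⟨e z1, ?_, ?_⟩
      · rw [mem_closedBall]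
        have := dist_triangle_right (e z1) (e y) c
        linarith
      · have h2 := hlow (e z1) (by rw [mem_closedBall]; linarith)
        rw [e.left_inv hz1.1] at h2
        have h3 : (2:ℝ) ≤ Real.exp (lam i) := by
          have := Real.add_one_le_exp (lam i); linarith
        have h4 : 0 ≤ q (e z1) := by nlinarith [sq_nonneg (φ i z1)]
        have h5 : φ i z1 ^ 2 ≤ Real.exp (lam i) * q (e z1) := by nlinarith
        have h6 : Real.exp ((C + 2 * |A| + 1) * lam i) = Real.exp (C * lam i)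
            * (Real.exp (|A| * lam i) ^ 2 * Real.exp (lam i)) := by
          rw [sq, ← Real.exp_add, ← Real.exp_add, ← Real.exp_add]; congr 1; ring
        rw [h6, hS, mul_pow, sq_abs, mul_assoc, mul_assoc]
        exact mul_le_mul_of_nonneg_left (mul_le_mul_of_nonneg_left h5 (by positivity))
          (by positivity))
  have hzR : z ∈ closedBall (e y) (r / 2) := closedBall_subset_closedBall (by linarith) hz
  have huc : ContinuousOn (fun w => |φ i (e.symm w)|) (closedBall z ρ) :=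
    ((hcont i).comp_continuousOn (e.continuousOn_symm.mono ((hsubR z hzR).trans hsub))).abs
  obtain ⟨w, hw, hwm⟩ := (isCompact_closedBall z ρ).exists_isMaxOn
    ⟨z, mem_closedBall_self hρ0.le⟩ huc
  have h7 := hup z (hsubR z hzR) _ (fun w' hw' => hwm hw')
  refine ⟨e.symm w, hεN ?_, fun x => (hS1 x).trans ?_⟩
  · rw [mem_closedBall] at hz hw
    rw [mem_ball]
    have := dist_triangle w z (e y)
    linarith
  · set E : ℝ := B * ((C + 2 * |A| + 1) * lam i + K * lam i + 1) with hE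
    set E' : ℝ := B * (C + 2 * |A| + K + 2) * lam i with hE'
    have hEE : E ≤ E' := by
      rw [hE, hE', mul_assoc]
      apply mul_le_mul_of_nonneg_left _ (by linarith)
      nlinarith
    have hE0 : 0 ≤ E' := by rw [hE']; have : 0 ≤ B := by linarith
                            positivity
    have h8 : Real.exp (C * lam i) * S ^ 2 ≤ Real.exp (C * lam i)
        * (Real.exp E * |φ i (e.symm w)| ^ 2) := by
      calc _ ≤ Real.exp E * q z := hzQ
        _ ≤ Real.exp E * (Real.exp (C * lam i) * |φ i (e.symm w)| ^ 2) :=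
          mul_le_mul_of_nonneg_left h7 (Real.exp_pos _).le
        _ = _ := by ring
    have h9 := le_of_mul_le_mul_left h8 (Real.exp_pos _)
    have h10 : Real.exp E ≤ Real.exp E' ^ 2 := by
      rw [sq, ← Real.exp_add]; exact Real.exp_le_exp.2 (by linarith)
    have h11 : S ^ 2 ≤ (Real.exp E' * |φ i (e.symm w)|) ^ 2 := by
      rw [mul_pow (Real.exp E')]; exact h9.trans (mul_le_mul_of_nonneg_right h10 (sq_nonneg _))
    exact (abs_le_of_sq_le_sq' h11 (by positivity)).2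

end Pool.Agent.Lib.MP_a52643_an.QSLoc
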