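import Pool.Agent.Lib.MP_a52643_an.QS.Calc

/-!
Polynomial bumps, integration by parts, mean value estimates on the unit disc.
-/

namespace Pool.Agent.Lib.MP_a52643_an.QS

open Complex Filter Topology Metric MeasureTheory Set
open scoped ContDiff

/-- The bumps. -/
noncomputable def P (k : ℕ) (s : ℂ) : ℝ := max (1 - ‖s‖ ^ 2) 0 ^ k

/-- Their integrals. -/
noncomputable def cP (k : ℕ) : ℝ := ∫ s, P k s

variable {F : ℂ → ℝ} {k : ℕ} {s : ℂ}

theorem P_nonneg (k : ℕ) (s : ℂ) : 0 ≤ P k s := pow_nonneg (le_max_right _ _) _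

theorem P_le_one (k : ℕ) (s : ℂ) : P k s ≤ 1 :=
  pow_le_one₀ (le_max_right _ _) (max_le (by nlinarith [sq_nonneg ‖s‖]) zero_le_one)

theorem P_succ_le (k : ℕ) (s : ℂ) : P (k + 1) s ≤ P k s :=
  pow_le_pow_of_le_one (le_max_right _ _)
    (max_le (by nlinarith [sq_nonneg ‖s‖]) zero_le_one) (Nat.le_succ k)

theorem P_out (h : 1 ≤ ‖s‖) : P (k + 1) s = 0 := by
  rw [P, max_eq_right (by nlinarith), zero_pow (Nat.succ_ne_zero k)]

theorem P_in (h : ‖s‖ ≤ 1) : P k s = (1 - ‖s‖ ^ 2) ^ k := by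
  rw [P, max_eq_left (by nlinarith [norm_nonneg s])]

theorem P_cont (k : ℕ) : Continuous (P k) := by unfold P; fun_prop

theorem P_supp (k : ℕ) : HasCompactSupport (P (k + 1)) :=
  HasCompactSupport.intro (isCompact_closedBall (0 : ℂ) 1) fun s hs =>
    P_out (by simpa using (not_le.1 (mt mem_closedBall_zero_iff.2 hs)).le)

theorem intP {f : ℂ → ℝ} (hf : Continuous f) (k : ℕ) :
    Integrable fun s => f s * P (k + 1) s :=
  (hf.mul (P_cont _)).integrable_of_hasCompactSupport (P_supp k).mul_left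

theorem intP' (k : ℕ) : Integrable (P (k + 1)) :=
  (P_cont _).integrable_of_hasCompactSupport (P_supp k)

theorem cP_pos (k : ℕ) : 0 < cP (k + 1) :=
  (P_cont _).integral_pos_of_hasCompactSupport_nonneg_nonzero (P_supp k) (P_nonneg _)
    (x := 0) (by simp [P])

theorem cP_succ_le (k : ℕ) : cP (k + 2) ≤ cP (k + 1) :=
  integral_mono (intP' _) (intP' _) (P_succ_le _)

theorem abs_int_le {f : ℂ → ℝ} {H : ℝ} (h : ∀ s, ‖s‖ ≤ 1 → |f s| ≤ H) (k : ℕ) :
    |∫ s, f s * P (k + 1) s| ≤ H * cP (k + 1) := by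
  rw [cP, ← integral_const_mul, ← Real.norm_eq_abs]
  refine norm_integral_le_of_norm_le ((intP' k).const_mul H) (Eventually.of_forall fun s => ?_)
  rcases le_total ‖s‖ 1 with h1 | h1
  · rw [Real.norm_eq_abs, abs_mul, abs_of_nonneg (P_nonneg _ _)]
    exact mul_le_mul_of_nonneg_right (h s h1) (P_nonneg _ _)
  · simp [P_out h1]

theorem pos_pow_deriv (k : ℕ) (t : ℝ) :
    HasDerivAt (fun t : ℝ => max t 0 ^ (k + 2)) ((k + 2) * max t 0 ^ (k + 1)) t := by
  have h1 : ∀ t : ℝ, HasDerivAt (fun t : ℝ => t ^ (k + 2)) ((k + 2) * t ^ (k + 1)) t := fun t => by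
    simpa using hasDerivAt_pow (k + 2) t
  rcases lt_trichotomy t 0 with h | rfl | h
  · rw [max_eq_right h.le, zero_pow (Nat.succ_ne_zero k), mul_zero]
    refine (hasDerivAt_const t (0 : ℝ)).congr_of_eventuallyEq ?_
    filter_upwards [Iio_mem_nhds h] with y hy
    rw [max_eq_right (le_of_lt hy), zero_pow (Nat.succ_ne_zero _)]
  · rw [← hasDerivWithinAt_univ, ← Iic_union_Ici (a := (0 : ℝ)), max_self]
    refine HasDerivWithinAt.union ?_ ((h1 0).hasDerivWithinAt.congr (fun y hy => ?_) (by simp))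
    · rw [zero_pow (Nat.succ_ne_zero k), mul_zero]
      refine (hasDerivAt_const (0 : ℝ) (0 : ℝ)).hasDerivWithinAt.congr (fun y hy => ?_) (by simp)
      rw [max_eq_right hy, zero_pow (Nat.succ_ne_zero _)]
    · rw [max_eq_left hy]
  · rw [max_eq_left h.le]
    refine (h1 t).congr_of_eventuallyEq ?_
    filter_upwards [Ioi_mem_nhds h] with y hy
    rw [max_eq_left (le_of_lt hy)]

theorem P_fderiv (k : ℕ) (s : ℂ) : HasFDerivAt (P (k + 2))
    (((k + 2) * P (k + 1) s) • (-(2 • innerSL ℝ s) : ℂ →L[ℝ] ℝ)) s := by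
  have h := HasDerivAt.comp_hasFDerivAt (f := fun x : ℂ => 1 - ‖x‖ ^ 2) s
    (pos_pow_deriv k (1 - ‖s‖ ^ 2)) ((hasStrictFDerivAt_norm_sq s).hasFDerivAt.const_sub 1)
  exact h

theorem ibp (hF : Sm F) (k : ℕ) (v : ℂ) : ∫ s, D v F s * P (k + 2) s =
    2 * (k + 2) * ∫ s, F s * (s.re * v.re + s.im * v.im) * P (k + 1) s := by
  have e : ∀ s, F s * fderiv ℝ (P (k + 2)) s v =
      -(2 * (k + 2)) * (F s * (s.re * v.re + s.im * v.im) * P (k + 1) s) := fun s => by
    rw [(P_fderiv k s).fderiv]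
    simp
    ring
  have hc := hF.continuous
  have h := integral_mul_fderiv_eq_neg_fderiv_mul_of_integrable (μ := volume) (f := F)
    (g := P (k + 2)) (v := v) (intP (smD hF v).continuous _)
    (by simp only [e]; exact (intP (by fun_prop) k).const_mul _) (intP hc _)
    (fun x _ => dif hF x) fun x _ => (P_fderiv k x).differentiableAt
  simp only [e, integral_const_mul] at h
  unfold D
  linarith

theorem lap_ibp (hF : Sm F) (k : ℕ) :
    ∫ s, Lap F s * P (k + 2) s = 2 * (k + 2) * ∫ s, D s F s * P (k + 1) s := by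
  have c1 := (smD hF 1).continuous
  have c2 := (smD hF I).continuous
  simp only [Lap, add_mul]
  rw [integral_add (intP (smD (smD hF 1) 1).continuous _) (intP (smD (smD hF I) I).continuous _),
    ibp (smD hF 1), ibp (smD hF I), ← mul_add,
    ← integral_add (intP (by fun_prop) k) (intP (by fun_prop) k)]
  congr 2
  funext s
  rw [D_lin F s s]
  simp
  ring

theorem lap_P3 (hF : Sm F) :
    ∫ s, Lap F s * P 3 s = ∫ s, F s * (24 * P 1 s - 36 * P 2 s) := by
  have c0 := hF.continuous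
  have c1 := (smD hF 1).continuous
  have c2 := (smD hF I).continuous
  have s1 : Sm fun s : ℂ => s.re := reCLM.contDiff
  have s2 : Sm fun s : ℂ => s.im := imCLM.contDiff
  have d1 : ∀ s, D 1 (fun s : ℂ => s.re) s = 1 := fun s => by
    rw [D, show (fun s : ℂ => s.re) = reCLM from rfl, ContinuousLinearMap.fderiv]; rfl
  have d2 : ∀ s, D I (fun s : ℂ => s.im) s = 1 := fun s => by
    rw [D, show (fun s : ℂ => s.im) = imCLM from rfl, ContinuousLinearMap.fderiv]; rfl
  have h1 := ibp (hF.mul s1) 0 1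
  have h2 := ibp (hF.mul s2) 0 I
  rw [D_mul hF s1] at h1
  rw [D_mul hF s2] at h2
  simp only [d1, d2, mul_one, one_re, one_im, I_re, I_im, mul_zero, add_zero, zero_add,
    Nat.cast_zero] at h1 h2
  have h3 := congrArg₂ (· + ·) h1 h2
  rw [← integral_add (intP (by fun_prop) 1) (intP (by fun_prop) 1), ← mul_add,
    ← integral_add (intP (by fun_prop) 0) (intP (by fun_prop) 0)] at h3
  have e1 : ∫ s, ((D 1 F s * s.re + F s) * P 2 s + (D I F s * s.im + F s) * P 2 s) =
      (∫ s, D s F s * P 2 s) + ∫ s, 2 * F s * P 2 s := by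
    have : Continuous fun s => D s F s :=
      Continuous.congr (by fun_prop) fun s => (D_lin F s s).symm
    rw [← integral_add (intP this 1) (intP (by fun_prop) 1)]
    congr 1
    funext s
    rw [D_lin F s s]
    ring
  have e2 : ∫ s, F s * (24 * P 1 s - 36 * P 2 s) =
      24 * (∫ s, (F s * s.re * s.re * P 1 s + F s * s.im * s.im * P 1 s)) -
        6 * ∫ s, 2 * F s * P 2 s := by
    have i1 : Integrable fun s => F s * s.re * s.re * P 1 s + F s * s.im * s.im * P 1 s :=
      (intP (by fun_prop) 0).add (intP (by fun_prop) 0)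
    have i2 : Integrable fun s => 2 * F s * P 2 s := intP (by fun_prop) 1
    rw [← integral_const_mul, ← integral_const_mul,
      ← integral_sub (i1.const_mul _) (i2.const_mul _)]
    congr 1
    funext s
    rcases le_total ‖s‖ 1 with h | h
    · simp only [P_in h, Complex.sq_norm, normSq_apply]
      ring
    · simp [P_out h]
  have h4 := lap_ibp hF 1
  rw [e1] at h3
  rw [e2]
  norm_num at h4 h3 ⊢
  linarith

theorem avg_deriv (hF : Sm F) (k : ℕ) (t : ℝ) :
    HasDerivAt (fun t : ℝ => ∫ s, F (t • s) * P (k + 1) s)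
      (∫ s, D s F (t • s) * P (k + 1) s) t := by
  have c0 := hF.continuous
  have c1 := (smD hF 1).continuous
  have c2 := (smD hF I).continuous
  have c3 : Continuous fun p : ℝ × ℂ => D p.2 F (p.1 • p.2) :=
    Continuous.congr (by fun_prop) fun p => (D_lin F p.2 _).symm
  obtain ⟨K, hK⟩ := ((isCompact_closedBall t 1).prod
    (isCompact_closedBall (0 : ℂ) 1)).exists_bound_of_continuousOn c3.continuousOn
  refine (hasDerivAt_integral_of_dominated_loc_of_deriv_le (bound := fun s => K * P (k + 1) s)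
    (F' := fun t s => D s F (t • s) * P (k + 1) s) (closedBall_mem_nhds t one_pos)
    (Eventually.of_forall fun x => (intP (by fun_prop) k).aestronglyMeasurable)
    (intP (by fun_prop) k)
    (intP (c3.comp (Continuous.prodMk_right t)) k).aestronglyMeasurable
    (Eventually.of_forall fun s x hx => ?_) ((intP' k).const_mul K)
    (Eventually.of_forall fun s x _ => ?_)).2
  · rcases le_total ‖s‖ 1 with h | h
    · rw [norm_mul, Real.norm_of_nonneg (P_nonneg _ _)]
      exact mul_le_mul_of_nonneg_right (hK (x, s) ⟨hx, mem_closedBall_zero_iff.2 h⟩)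
        (P_nonneg _ _)
    · simp [P_out h]
  · simpa using (line hF 0 s x).mul_const (P (k + 1) s)

/-- The mean value estimate. -/
theorem U2 (hF : Sm F) (k : ℕ) {H : ℝ} (h : ∀ s, ‖s‖ ≤ 1 → |Lap F s| ≤ H) :
    |(∫ s, F s * P (k + 1) s) - cP (k + 1) * F 0| ≤ H * cP (k + 1) := by
  obtain ⟨t, ⟨t0, t1⟩, ht⟩ := exists_hasDerivAt_eq_slope _ _ zero_lt_one
    (fun t _ => (avg_deriv hF k t).continuousAt.continuousWithinAt) fun t _ => avg_deriv hF k t
  simp only [one_smul, zero_smul, sub_zero, div_one, integral_const_mul] at ht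
  have h1 := lap_ibp (smAf hF 0 t) k
  simp only [Lap_Af hF, D_Af hF, Af, zero_add, mul_assoc, integral_const_mul] at h1
  have h2 := abs_int_le (f := fun s => Lap F (t • s)) (H := H) (fun s hs => h _ (by
    rw [norm_smul, Real.norm_of_nonneg t0.le]; nlinarith [norm_nonneg s])) (k + 1)
  have hH : 0 ≤ H := (abs_nonneg _).trans (h 0 (by simp))
  have h3 := mul_le_mul_of_nonneg_left (cP_succ_le k) hH
  rw [cP, mul_comm _ (F 0), ← ht]
  set X := ∫ s, D s F (t • s) * P (k + 1) s
  set Y := ∫ s, Lap F (t • s) * P (k + 2) s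
  have h4 : t * Y = 2 * ((k + 2) * X) := mul_left_cancel₀ t0.ne' (by linarith)
  have h5 := congrArg abs h4
  have k0 : (0 : ℝ) ≤ k := Nat.cast_nonneg k
  rw [abs_mul, abs_mul, abs_mul, abs_of_pos t0, abs_two,
    abs_of_pos (show (0 : ℝ) < k + 2 by linarith)] at h5
  change |X| ≤ H * cP (k + 1)
  nlinarith [abs_nonneg X, abs_nonneg Y]

/-- The gradient estimate. -/
theorem U1 (hF : Sm F) {v : ℂ} (hv : ‖v‖ ≤ 1) {H : ℝ}
    (h : ∀ s, ‖s‖ ≤ 1 → |Lap (D v F) s| ≤ H) :
    cP 3 * |D v F 0| ≤ 6 * (∫ s, |F s| * P 2 s) + H * cP 3 := by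
  have c0 := hF.continuous
  have h1 := U2 (smD hF v) 2 h
  have h2 := ibp hF 1 v
  have h3 : |∫ s, F s * (s.re * v.re + s.im * v.im) * P 2 s| ≤ ∫ s, |F s| * P 2 s := by
    rw [← Real.norm_eq_abs]
    refine norm_integral_le_of_norm_le (intP (by fun_prop) 1) (Eventually.of_forall fun s => ?_)
    rcases le_total ‖s‖ 1 with h1 | h1
    · rw [Real.norm_eq_abs, abs_mul, abs_mul, abs_of_nonneg (P_nonneg _ _)]
      refine mul_le_mul_of_nonneg_right (mul_le_of_le_one_right (abs_nonneg _) ?_) (P_nonneg _ _)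
      have := abs_real_inner_le_norm v s
      simp only [Complex.inner, mul_re, conj_re, conj_im, mul_neg, sub_neg_eq_add] at this
      nlinarith [norm_nonneg s, norm_nonneg v]
    · simp [P_out h1]
  norm_num at h1 h2
  rw [h2] at h1
  rw [← abs_of_pos (cP_pos 2), ← abs_mul, abs_of_pos (cP_pos 2)]
  rw [abs_le] at h1 h3 ⊢
  constructor <;> linarith [h1.1, h1.2, h3.1, h3.2]

/-- The area of the set where `F` is positive. -/
noncomputable def Pos (r : ℝ) (F : ℂ → ℝ) : ℝ := volume.real {s | ‖s‖ ≤ r ∧ 0 < F s}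

theorem Pos_nonneg (r : ℝ) (F : ℂ → ℝ) : 0 ≤ Pos r F := measureReal_nonneg

theorem pos_fin (r : ℝ) (F : ℂ → ℝ) : volume {s | ‖s‖ ≤ r ∧ 0 < F s} ≠ ⊤ :=
  ((measure_mono fun _ h => mem_closedBall_zero_iff.2 h.1).trans_lt measure_closedBall_lt_top).ne

theorem int_pos_le (hF : Continuous F) {K : ℝ} (h : ∀ s, ‖s‖ ≤ 1 → |F s| ≤ K) (k : ℕ) :
    ∫ s, max (F s) 0 * P (k + 1) s ≤ K * Pos 1 F := by
  have hm : MeasurableSet {s | ‖s‖ ≤ 1 ∧ 0 < F s} :=
    (measurableSet_le measurable_norm measurable_const).inter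
      (measurableSet_lt measurable_const hF.measurable)
  have hK : 0 ≤ K := (abs_nonneg _).trans (h 0 (by simp))
  rw [Pos, mul_comm, ← smul_eq_mul, ← integral_indicator_const _ hm]
  refine integral_mono (intP (by fun_prop) k)
    ((integrableOn_const (pos_fin 1 F)).integrable_indicator hm) fun s => ?_
  by_cases hs : s ∈ {s | ‖s‖ ≤ 1 ∧ 0 < F s}
  · simp only [indicator_of_mem hs]
    exact (mul_le_of_le_one_right (le_max_right _ _) (P_le_one _ _)).trans
      (max_le ((le_abs_self _).trans (h s hs.1)) hK)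
  · simp only [indicator_of_notMem hs]
    rcases le_total ‖s‖ 1 with h1 | h1
    · rw [max_eq_right (not_lt.1 fun h2 => hs ⟨h1, h2⟩), zero_mul]
    · simp [P_out h1]

theorem int_abs (hF : Continuous F) {f : ℂ → ℝ} (hf : Continuous f) (k : ℕ) :
    ∫ s, |F s| * f s * P (k + 1) s =
      2 * (∫ s, max (F s) 0 * f s * P (k + 1) s) - ∫ s, F s * f s * P (k + 1) s := by
  rw [← integral_const_mul,
    ← integral_sub ((intP (by fun_prop) k).const_mul _) (intP (by fun_prop) k)]
  congr 1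
  funext s
  rcases le_total 0 (F s) with h | h
  · rw [abs_of_nonneg h, max_eq_left h]; ring
  · rw [abs_of_nonpos h, max_eq_right h]; ring

/-- A solution of a Helmholtz equation on a large disc is not mostly negative. -/
theorem U3 (hF : Sm F) {ν : ℂ → ℝ} (hν : Continuous ν) {N K : ℝ}
    (h : ∀ s, ‖s‖ ≤ 1 → 28 ≤ ν s ∧ ν s ≤ N ∧ Lap F s = -ν s * F s ∧ |F s| ≤ K) :
    7 * ∫ s, |F s| * P 3 s ≤ (N + 24) * (K * Pos 1 F) := by
  have c0 := hF.continuous
  have c1 := P_cont 1
  have c2 := P_cont 2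
  have cL := (smLap hF).continuous
  set f : ℂ → ℝ := fun s => ν s * P 2 s + 24 - 36 * P 1 s with hf
  have cf : Continuous f := by fun_prop
  have h1 : ∫ s, F s * f s * P 1 s = 0 := by
    rw [← sub_self (∫ s, Lap F s * P 3 s)]
    nth_rewrite 1 [lap_P3 hF]
    have i1 : Integrable fun s => F s * (24 * P 1 s - 36 * P 2 s) := by
      have := ((intP c0 0).const_mul 24).sub ((intP c0 1).const_mul 36)
      refine this.congr (Eventually.of_forall fun s => ?_)
      simp only [Pi.sub_apply]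
      ring
    rw [← integral_sub i1 (intP cL 2)]
    congr 1
    funext s
    rcases le_total ‖s‖ 1 with h1 | h1
    · simp only [hf, P_in h1, (h s h1).2.2.1]
      ring
    · simp [P_out h1]
  have h2 := int_abs c0 cf 0
  have h3 : 14 * ∫ s, |F s| * P 3 s ≤ ∫ s, |F s| * f s * P 1 s := by
    rw [← integral_const_mul]
    refine integral_mono ((intP (by fun_prop) 2).const_mul _) (intP (by fun_prop) 0) fun s => ?_
    rcases le_total ‖s‖ 1 with h1 | h1
    · have a1 := P_nonneg 1 s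
      have a2 := (h s h1).1
      simp only [hf, P_in h1, pow_one] at a1 ⊢
      generalize 1 - ‖s‖ ^ 2 = x at a1 ⊢
      have a3 : 14 * x ^ 2 ≤ ν s * x ^ 2 + 24 - 36 * x := by
        nlinarith [sq_nonneg (7 * x - 9), sq_nonneg x]
      nlinarith [mul_le_mul_of_nonneg_left a3 (mul_nonneg (abs_nonneg (F s)) a1)]
    · simp [P_out h1]
  have h4 : ∫ s, max (F s) 0 * f s * P 1 s ≤ (N + 24) * ∫ s, max (F s) 0 * P 1 s := by
    rw [← integral_const_mul]
    refine integral_mono (intP (by fun_prop) 0) ((intP (by fun_prop) 0).const_mul _) fun s => ?_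
    rcases le_total ‖s‖ 1 with h1 | h1
    · have a1 := P_nonneg 1 s
      have a3 : f s ≤ N + 24 := by
        simp only [hf]
        nlinarith [(h s h1).1, (h s h1).2.1, P_le_one 2 s]
      nlinarith [mul_le_mul_of_nonneg_left a3 (mul_nonneg (le_max_right (F s) 0) a1)]
    · simp [P_out h1]
  have h5 := int_pos_le c0 (fun s hs => (h s hs).2.2.2) 0
  have h6 : 0 ≤ N + 24 := by linarith [(h 0 (by simp)).1, (h 0 (by simp)).2.1]
  norm_num at h2 h5
  nlinarith [mul_le_mul_of_nonneg_left h5 h6]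

end Pool.Agent.Lib.MP_a52643_an.QS
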