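import Mathlib

/-!
Calculus in the plane: directional derivatives of smooth real functions on `ℂ`.
-/

namespace Pool.Agent.Lib.MP_a52643_an.QS

open Complex Filter Topology Metric
open scoped ContDiff Laplacian

/-- Smooth functions on the plane. -/
abbrev Sm (F : ℂ → ℝ) : Prop := ContDiff ℝ ∞ F

/-- Directional derivative. -/
noncomputable def D (v : ℂ) (F : ℂ → ℝ) : ℂ → ℝ := fun z => fderiv ℝ F z v

/-- The Laplacian. -/
noncomputable def Lap (F : ℂ → ℝ) : ℂ → ℝ := fun z => D 1 (D 1 F) z + D I (D I F) z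

/-- The squared gradient. -/
noncomputable def Gr (F : ℂ → ℝ) : ℂ → ℝ := fun z => D 1 F z ^ 2 + D I F z ^ 2

variable {F G : ℂ → ℝ} {z v w : ℂ}

theorem dif (h : Sm F) : Differentiable ℝ F := h.differentiable (by simp)

theorem smD (h : Sm F) (v : ℂ) : ContDiff ℝ ∞ (D v F) :=
  (h.fderiv_right (m := ∞) (by simp)).clm_apply contDiff_const

theorem smLap (h : Sm F) : Sm (Lap F) := (smD (smD h 1) 1).add (smD (smD h I) I)

theorem smGr (h : Sm F) : Sm (Gr F) := ((smD h 1).pow 2).add ((smD h I).pow 2)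

theorem Gr_nonneg (F : ℂ → ℝ) (z : ℂ) : 0 ≤ Gr F z := by unfold Gr; positivity

theorem D_congr (h : F =ᶠ[𝓝 z] G) (v : ℂ) : D v F z = D v G z := by
  unfold D; rw [h.fderiv_eq]

theorem D_congr' (h : F =ᶠ[𝓝 z] G) (v : ℂ) : D v F =ᶠ[𝓝 z] D v G :=
  h.eventuallyEq_nhds.mono fun _ hy => D_congr hy v

theorem D_add_at (hF : DifferentiableAt ℝ F z) (hG : DifferentiableAt ℝ G z) (v : ℂ) :
    D v (fun s => F s + G s) z = D v F z + D v G z := by
  unfold D; rw [fderiv_fun_add hF hG]; rfl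

theorem D_mul_at (hF : DifferentiableAt ℝ F z) (hG : DifferentiableAt ℝ G z) (v : ℂ) :
    D v (fun s => F s * G s) z = D v F z * G z + F z * D v G z := by
  unfold D; rw [fderiv_fun_mul hF hG]; simp; ring

theorem D_cmul_at (hF : DifferentiableAt ℝ F z) (c : ℝ) (v : ℂ) :
    D v (fun s => c * F s) z = c * D v F z := by
  unfold D; rw [fderiv_const_mul hF]; simp

theorem D_add (hF : ContDiff ℝ ∞ F) (hG : ContDiff ℝ ∞ G) (v : ℂ) :
    D v (fun s => F s + G s) = fun z => D v F z + D v G z :=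
  funext fun z => D_add_at (dif hF z) (dif hG z) v

theorem D_mul (hF : ContDiff ℝ ∞ F) (hG : ContDiff ℝ ∞ G) (v : ℂ) :
    D v (fun s => F s * G s) = fun z => D v F z * G z + F z * D v G z :=
  funext fun z => D_mul_at (dif hF z) (dif hG z) v

theorem D_cmul (hF : ContDiff ℝ ∞ F) (c : ℝ) (v : ℂ) :
    D v (fun s => c * F s) = fun z => c * D v F z :=
  funext fun z => D_cmul_at (dif hF z) c v

theorem D_lin (F : ℂ → ℝ) (v z : ℂ) : D v F z = v.re * D 1 F z + v.im * D I F z := by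
  unfold D
  conv_lhs => rw [show v = v.re • (1 : ℂ) + v.im • I by simp]
  rw [map_add, map_smul, map_smul, smul_eq_mul, smul_eq_mul]

theorem D_D (hF : ContDiffAt ℝ ∞ F z) (v w : ℂ) :
    D v (D w F) z = fderiv ℝ (fderiv ℝ F) z v w := by
  have h : DifferentiableAt ℝ (fderiv ℝ F) z :=
    (hF.fderiv_right (m := 1) (by norm_cast)).differentiableAt (by simp)
  unfold D
  rw [fderiv_clm_apply h (differentiableAt_const w)]
  simp

theorem D_comm (hF : Sm F) (v w : ℂ) : D v (D w F) = D w (D v F) := by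
  funext z
  rw [D_D hF.contDiffAt, D_D hF.contDiffAt]
  exact (hF.contDiffAt.isSymmSndFDerivAt (by simp; norm_cast)).eq v w

theorem laplacian_eq (hF : Sm F) (z : ℂ) : Δ F z = Lap F z := by
  rw [InnerProductSpace.laplacian_eq_iteratedFDeriv_complexPlane]
  simp only [iteratedFDeriv_two_apply, Lap, D_D hF.contDiffAt]
  simp

theorem Lap_D (hF : Sm F) (v : ℂ) : Lap (D v F) = D v (Lap F) := by
  unfold Lap
  rw [D_add (smD (smD hF 1) 1) (smD (smD hF I) I), D_comm hF 1 v, D_comm hF I v,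
    D_comm (smD hF 1) 1 v, D_comm (smD hF I) I v]

theorem abs_D_le {L : ℝ} (h1 : |D 1 F z| ≤ L) (h2 : |D I F z| ≤ L) (v : ℂ) :
    |D v F z| ≤ 2 * ‖v‖ * L := by
  rw [D_lin]
  have a1 := abs_re_le_norm v
  have a2 := abs_im_le_norm v
  have a3 := abs_add_le (v.re * D 1 F z) (v.im * D I F z)
  rw [abs_mul, abs_mul] at a3
  have a4 := mul_le_mul a1 h1 (abs_nonneg _) (norm_nonneg _)
  have a5 := mul_le_mul a2 h2 (abs_nonneg _) (norm_nonneg _)
  linarith

theorem line (hF : Sm F) (z v : ℂ) (t : ℝ) :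
    HasDerivAt (fun t : ℝ => F (z + t • v)) (D v F (z + t • v)) t := by
  have h1 : HasDerivAt (fun t : ℝ => z + t • v) v t := by
    simpa using ((hasDerivAt_id t).smul_const v).const_add z
  exact (dif hF (z + t • v)).hasFDerivAt.comp_hasDerivAt t h1

/-- Affine change of the variable. -/
noncomputable def Af (z : ℂ) (t : ℝ) (F : ℂ → ℝ) : ℂ → ℝ := fun s => F (z + t • s)

theorem smAf (hF : Sm F) (z : ℂ) (t : ℝ) : Sm (Af z t F) :=
  hF.comp (contDiff_const.add (contDiff_id.const_smul t))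

theorem D_Af (hF : Sm F) (z : ℂ) (t : ℝ) (v : ℂ) :
    D v (Af z t F) = fun s => t * Af z t (D v F) s := by
  funext s
  have h1 : HasFDerivAt (fun s : ℂ => z + t • s) (t • ContinuousLinearMap.id ℝ ℂ) s :=
    ((hasFDerivAt_id s).const_smul t).const_add z
  have h2 := ((dif hF (z + t • s)).hasFDerivAt.comp s h1).fderiv
  have h3 : fderiv ℝ (Af z t F) s = _ := h2
  simp only [D, Af]
  rw [h3]
  simp [-Complex.real_smul]

theorem DD_Af (hF : Sm F) (z : ℂ) (t : ℝ) (v w : ℂ) (s : ℂ) :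
    D v (D w (Af z t F)) s = t ^ 2 * D v (D w F) (z + t • s) := by
  rw [D_Af hF, D_cmul (smAf (smD hF w) z t), D_Af (smD hF w)]
  simp only [Af]
  ring

theorem Lap_Af (hF : Sm F) (z : ℂ) (t : ℝ) (s : ℂ) :
    Lap (Af z t F) s = t ^ 2 * Lap F (z + t • s) := by
  simp only [Lap, DD_Af hF]
  ring

theorem Lap_cmul (hF : Sm F) (c : ℝ) (s : ℂ) : Lap (fun s => c * F s) s = c * Lap F s := by
  simp only [Lap, D_cmul hF, D_cmul (smD hF _)]
  ring

theorem sub_le (hF : Sm F) {r L : ℝ} (h : ∀ s, ‖s - z‖ ≤ r → |D 1 F s| ≤ L ∧ |D I F s| ≤ L)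
    (hw : ‖w - z‖ ≤ r) : |F w - F z| ≤ 2 * r * L := by
  have hL : 0 ≤ L := (abs_nonneg _).trans (h z (by simpa using (norm_nonneg _).trans hw)).1
  have := norm_image_sub_le_of_norm_deriv_le_segment_01' (C := 2 * r * L)
    (fun t _ => (line hF z (w - z) t).hasDerivWithinAt) (fun t ht => by
      have h1 : ‖z + t • (w - z) - z‖ ≤ r := by
        rw [add_sub_cancel_left, norm_smul, Real.norm_eq_abs, abs_of_nonneg ht.1]
        nlinarith [norm_nonneg (w - z), ht.1, ht.2]
      exact (abs_D_le (h _ h1).1 (h _ h1).2 _).trans (by gcongr))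
  simpa using this

/-- The second derivative test. -/
theorem max_test {g g1 : ℝ → ℝ} {c : ℝ} (h1 : ∀ t, HasDerivAt g (g1 t) t)
    (h2 : HasDerivAt g1 c 0) (hm : IsLocalMax g 0) : c ≤ 0 := by
  by_contra hc
  have e : deriv g = g1 := funext fun t => (h1 t).deriv
  have h3 : IsLocalMin g 0 := isLocalMin_of_deriv_deriv_pos
    (by rw [e, h2.deriv]; exact not_le.1 hc) hm.deriv_eq_zero (h1 0).continuousAt
  have h4 : g =ᶠ[𝓝 0] fun _ => g 0 := by
    filter_upwards [hm, h3] with t a b using le_antisymm a b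
  have h5 := h4.deriv.deriv_eq
  rw [e, h2.deriv] at h5
  simp only [deriv_const', deriv_const] at h5
  exact hc h5.le

/-- Extension of a smooth function from a ball. -/
theorem extend {U : Set ℂ} (hU : IsOpen U) {c : ℂ} {r : ℝ} (hr : 0 < r)
    (hc : closedBall c (3 * r) ⊆ U) (hF : ContDiffOn ℝ ∞ F U) :
    ∃ G, Sm G ∧ ∀ z ∈ ball c (2 * r), G z = F z := by
  let χ : ContDiffBump c := ⟨2 * r, 3 * r, by linarith, by linarith⟩
  refine ⟨fun z => χ z * F z, contDiff_iff_contDiffAt.2 fun z => ?_, fun z hz => ?_⟩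
  · by_cases hz : z ∈ U
    · exact χ.contDiff.contDiffAt.mul (hF.contDiffAt (hU.mem_nhds hz))
    · have h1 : z ∉ tsupport χ := by
        rw [χ.tsupport_eq]
        exact fun h => hz (hc h)
      refine (contDiffAt_const (c := 0)).congr_of_eventuallyEq ?_
      filter_upwards [notMem_tsupport_iff_eventuallyEq.1 h1] with y hy
      simp [hy]
  · simp [χ.one_of_mem_closedBall (ball_subset_closedBall hz)]

end Pool.Agent.Lib.MP_a52643_an.QS
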