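import Pool.Agent.Lib.MP_a52643_an.QS.Calc

/-!
The inequality of Dong for the logarithm of the energy density, and contact points.
-/

namespace Pool.Agent.Lib.MP_a52643_an.QS

open Complex Filter Topology Metric
open scoped ContDiff

/-- The energy density. -/
noncomputable def Q (u w : ℂ → ℝ) (l : ℝ) : ℂ → ℝ := fun s =>
  w s * (D 1 u s * D 1 u s + D I u s * D I u s) + l / 2 * (u s * u s)

variable {u w q : ℂ → ℝ} {l N b : ℝ} {x y z : ℂ}

theorem smQ (hu : Sm u) (hw : Sm w) (l : ℝ) : Sm (Q u w l) :=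
  (hw.mul (((smD hu 1).mul (smD hu 1)).add ((smD hu I).mul (smD hu I)))).add
    (contDiff_const.mul (hu.mul hu))

theorem Q_eq (u w : ℂ → ℝ) (l : ℝ) (s : ℂ) : Q u w l s = w s * Gr u s + l * u s ^ 2 / 2 := by
  simp only [Q, Gr]; ring

theorem dong_alg {w wx wy Lw u a b α β γ La Lb l N q qx qy Lq : ℝ} (hw : 0 < w) (hl : 0 ≤ l)
    (hN0 : 0 ≤ N) (e0 : w * (α + γ) = -l * u) (e1 : wx * (α + γ) + w * La = -l * a)
    (e2 : wy * (α + γ) + w * Lb = -l * b) (hN : w * l + (wx ^ 2 + wy ^ 2) - w * Lw ≤ N * w ^ 2)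
    (hq : q = w * (a * a + b * b) + l / 2 * (u * u))
    (hx : qx = wx * (a * a + b * b) + 2 * w * (a * α + b * β) + l * u * a)
    (hy : qy = wy * (a * a + b * b) + 2 * w * (a * β + b * γ) + l * u * b)
    (hL : Lq = Lw * (a * a + b * b) + 4 * (wx * (a * α + b * β) + wy * (a * β + b * γ)) +
      2 * w * (α ^ 2 + 2 * β ^ 2 + γ ^ 2 + a * La + b * Lb) + l * (a * a + b * b + u * (α + γ))) :
    -N * q ^ 2 ≤ q * Lq - (qx ^ 2 + qy ^ 2) := by
  set A := w * (α - γ) + wx * a - wy * b with hA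
  set B := 2 * w * β + wx * b + wy * a with hB
  set G := a * a + b * b with hG
  have G0 : 0 ≤ G := by nlinarith [sq_nonneg a, sq_nonneg b]
  have h0 : 0 ≤ l / 2 * (u * u) := mul_nonneg (by linarith) (mul_self_nonneg u)
  have f1 : qx = a * A + b * B := by rw [hx, hA, hB, hG]; linear_combination a * e0
  have f2 : qy = a * B - b * A := by rw [hy, hA, hB, hG]; linear_combination b * e0
  have f3 : w * Lq = A ^ 2 + B ^ 2 - G * (w * l + (wx ^ 2 + wy ^ 2) - w * Lw) := by
    rw [hL, hA, hB, hG]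
    linear_combination (w * (α + γ)) * e0 + (2 * w * a) * e1 + (2 * w * b) * e2
  have f4 : w * (q * Lq - (qx ^ 2 + qy ^ 2)) = (A ^ 2 + B ^ 2) * (l / 2 * (u * u)) -
      q * G * (w * l + (wx ^ 2 + wy ^ 2) - w * Lw) := by
    rw [f1, f2]
    linear_combination q * f3 + (A ^ 2 + B ^ 2) * hq + w * (A ^ 2 + B ^ 2) * hG
  have q0 : 0 ≤ q := by rw [hq]; positivity
  have f5 := mul_le_mul_of_nonneg_left hN (mul_nonneg q0 G0)
  have f6 : q * N * w * (w * G) ≤ q * N * w * q :=
    mul_le_mul_of_nonneg_left (by linarith) (by positivity)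
  refine le_of_mul_le_mul_left ?_ hw
  rw [f4]
  nlinarith [mul_nonneg (add_nonneg (sq_nonneg A) (sq_nonneg B)) h0]

theorem dong (hu : ContDiff ℝ ∞ u) (hw : ContDiff ℝ ∞ w) (hw0 : 0 < w z) (hl : 0 ≤ l) (hN0 : 0 ≤ N)
    (he : ∀ᶠ s in 𝓝 z, w s * Lap u s = -l * u s)
    (hN : w z * l + Gr w z - w z * Lap w z ≤ N * w z ^ 2) :
    -N * Q u w l z ^ 2 ≤ Q u w l z * Lap (Q u w l) z - Gr (Q u w l) z := by
  have e : ∀ v, D v w z * Lap u z + w z * Lap (D v u) z = -l * D v u z := fun v => by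
    have := D_congr he v
    rwa [D_mul hw (smLap hu), D_cmul hu, ← Lap_D hu] at this
  have hc := D_comm hu I 1
  have e0 := he.self_of_nhds
  have e1 := e 1
  have e2 := e I
  have ha := smD hu 1
  have hb := smD hu I
  have d : ∀ v, D v (Q u w l) = fun s => D v w s * (D 1 u s * D 1 u s + D I u s * D I u s) +
      w s * (D v (D 1 u) s * D 1 u s + D 1 u s * D v (D 1 u) s +
        (D v (D I u) s * D I u s + D I u s * D v (D I u) s)) +
      l / 2 * (D v u s * u s + u s * D v u s) := fun v => by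
    unfold Q
    simp (disch := fun_prop) only [D_add, D_cmul, D_mul]
  have dd : ∀ v, D v (D v (Q u w l)) z =
      D v (D v w) z * (D 1 u z * D 1 u z + D I u z * D I u z) +
      4 * D v w z * (D 1 u z * D v (D 1 u) z + D I u z * D v (D I u) z) +
      2 * w z * (D v (D 1 u) z ^ 2 + D v (D I u) z ^ 2 + D 1 u z * D v (D v (D 1 u)) z +
        D I u z * D v (D v (D I u)) z) + l * (D v u z ^ 2 + u z * D v (D v u) z) := fun v => by
    have h1 := smD hw v
    have h2 := smD ha v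
    have h3 := smD hb v
    have h4 := smD hu v
    rw [d v]
    simp (disch := fun_prop) only [D_add, D_cmul, D_mul]
    ring
  refine dong_alg (β := D 1 (D I u) z) hw0 hl hN0 e0 e1 e2 hN rfl ?_ ?_ ?_
  · rw [d 1]; ring
  · rw [d I, hc]; ring
  · simp only [Lap, dd]
    rw [show D I (D 1 u) z = D 1 (D I u) z from congrFun hc z]
    ring

/-- First and second order conditions at a contact point. -/
theorem contact (hq : Sm q) (h : IsLocalMax (fun z => q z * Real.exp (-b * ‖z - x‖ ^ 2)) y)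
    (e : ℂ) : D e q y = 2 * b * ((y - x).re * e.re + (y - x).im * e.im) * q y ∧
      D e (D e q) y - 2 * b * ((y - x).re * e.re + (y - x).im * e.im) * D e q y ≤
        2 * b * (e.re ^ 2 + e.im ^ 2) * q y := by
  set p := (y - x).re * e.re + (y - x).im * e.im with hp
  set n := e.re ^ 2 + e.im ^ 2 with hn
  have h1 : ∀ t : ℝ, ‖y + t • e - x‖ ^ 2 = ‖y - x‖ ^ 2 + 2 * p * t + n * t ^ 2 := fun t => by
    simp only [Complex.sq_norm, normSq_apply, hp, hn]
    simp
    ring
  have h2 : ∀ t : ℝ, HasDerivAt (fun t : ℝ => Real.exp (-b * ‖y + t • e - x‖ ^ 2))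
      (Real.exp (-b * ‖y + t • e - x‖ ^ 2) * (-b * (2 * p + n * (2 * t)))) t := fun t => by
    simp only [h1]
    refine HasDerivAt.exp (HasDerivAt.const_mul _ ?_)
    exact ((((hasDerivAt_id t).const_mul (2 * p)).const_add (‖y - x‖ ^ 2)).add
      ((hasDerivAt_pow 2 t).const_mul n)).congr_deriv (by simp)
  have h3 : ∀ t : ℝ, HasDerivAt (fun t : ℝ => q (y + t • e) * Real.exp (-b * ‖y + t • e - x‖ ^ 2))
      ((D e q (y + t • e) - b * (2 * p + n * (2 * t)) * q (y + t • e)) *
        Real.exp (-b * ‖y + t • e - x‖ ^ 2)) t := fun t => by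
    exact ((line hq y e t).mul (h2 t)).congr_deriv (by ring)
  have h4 : IsLocalMax (fun t : ℝ => q (y + t • e) * Real.exp (-b * ‖y + t • e - x‖ ^ 2)) 0 := by
    have c : ContinuousAt (fun t : ℝ => y + t • e) 0 := by fun_prop
    exact IsLocalMax.comp_continuous (f := fun z => q z * Real.exp (-b * ‖z - x‖ ^ 2))
      (g := fun t : ℝ => y + t • e) (by simpa using h) c
  have h5 := h4.hasDerivAt_eq_zero (h3 0)
  simp only [zero_smul, add_zero, mul_zero, mul_eq_zero, Real.exp_ne_zero, or_false] at h5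
  have h6 : HasDerivAt (fun t : ℝ => b * (2 * p + n * (2 * t))) (b * (n * 2)) 0 := by
    simpa using ((((hasDerivAt_id (0 : ℝ)).const_mul 2).const_mul n).const_add (2 * p)).const_mul b
  have h7 := max_test h3
    (((line (smD hq e) y e 0).sub (h6.mul (line hq y e 0))).mul (h2 0)) h4
  simp only [Pi.sub_apply, Pi.mul_apply, zero_smul, add_zero, mul_zero, h5, zero_mul] at h7
  have h8 := nonpos_of_mul_nonpos_left h7 (Real.exp_pos _)
  constructor <;> linarith

end Pool.Agent.Lib.MP_a52643_an.QS
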