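import Pool.Agent.Lib.MP_a52643_an.QS.Main
import Pool.Agent.Lib.MP_a52643_an.QS.Base

/-!
The theorem on a compact connected surface.
-/

namespace Pool.Agent.Lib.MP_a52643_an.QS

open Complex Filter Topology Metric MeasureTheory Set
open scoped ContDiff Laplacian

variable {X : Type} [TopologicalSpace X] [ChartedSpace ℂ X]

/-- Eigenfunctions, in charts. -/
def Eig (σ : X → ℂ → ℝ) (φ : X → ℝ) (l : ℝ) : Prop :=
  (∀ x, ContDiffOn ℝ ∞ (φ ∘ (chartAt ℂ x).symm) (chartAt ℂ x).target) ∧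
    ∀ x, ∀ z ∈ (chartAt ℂ x).target,
      Δ (φ ∘ (chartAt ℂ x).symm) z = -l * σ x z * φ ((chartAt ℂ x).symm z)

theorem Eig.cont {σ : X → ℂ → ℝ} {φ : X → ℝ} {l : ℝ} (h : Eig σ φ l) : Continuous φ := by
  refine continuous_iff_continuousAt.2 fun x => ?_
  have h1 := (h.1 x).continuousOn.comp (chartAt ℂ x).continuousOn (chartAt ℂ x).mapsTo
  refine (h1.congr fun y hy => ?_).continuousAt (chart_source_mem_nhds ℂ x)
  simp [(chartAt ℂ x).left_inv hy]

theorem exists_ball {V : Set ℂ} (hV : IsOpen V) {c : ℂ} (hc : c ∈ V) :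
    ∃ r, 0 < r ∧ closedBall c (3 * r) ⊆ V := by
  obtain ⟨ε, ε0, h⟩ := Metric.isOpen_iff.1 hV c hc
  exact ⟨ε / 4, by positivity, (closedBall_subset_ball (by linarith)).trans h⟩

variable [CompactSpace X] [PreconnectedSpace X] {σ : X → ℂ → ℝ}

theorem base (hσ : ∀ x, ContDiffOn ℝ ∞ (σ x) (chartAt ℂ x).target)
    (hσ0 : ∀ x, ∀ z ∈ (chartAt ℂ x).target, 0 < σ x z) (y : X) (N : Set X) (hN : N ∈ 𝓝 y) :
    ∃ A : ℝ, ∀ φ l, Eig σ φ l → 1 ≤ l → ∃ z ∈ N, ∀ x, |φ x| ≤ Real.exp (A * l) * |φ z| := by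
  obtain ⟨A, H⟩ := QSLoc.local_base (ι := {p : (X → ℝ) × ℝ // Eig σ p.1 p.2 ∧ 1 ≤ p.2})
    (fun i => i.1.1) (fun i => i.1.2) (fun i => i.2.2) (fun i => i.2.1.cont) (fun x => by
      obtain ⟨r, r0, hr⟩ := exists_ball (chartAt ℂ x).open_target (mem_chart_target ℂ x)
      obtain ⟨τ, w, m, M, m0, -, M1, w1, w2, H⟩ :=
        pack (chartAt ℂ x).open_target r0 hr (hσ x) (hσ0 x)
      refine ⟨r, r0, (closedBall_subset_closedBall (by linarith)).trans hr, M + M ^ 3,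
        by positivity, fun ρ ρ0 => ?_⟩
      obtain ⟨B, B0, HB⟩ := Q_le m0 (show 0 ≤ M by linarith) ρ0
      refine ⟨B + 2, by linarith, fun ⟨⟨φ, l⟩, i1, i2⟩ => ?_⟩
      obtain ⟨v, v1, v2⟩ := H M l _ le_rfl (i1.1 x) (i1.2 x)
      simp only [mem_closedBall_iff_norm] at i2 ⊢
      have l0 : 0 ≤ l := by linarith
      refine ⟨Q v w l, fun z _ => (smQ v2.hW w1 l).contDiffAt.of_le (by norm_cast),
        fun z hz => ?_, fun z hz => ?_, fun z hz S hS => ?_⟩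
      · refine le_trans (mul_le_mul_of_nonneg_right ?_ (sq_nonneg _))
          (dong' m0 l0 v2 w1 hz (w2 z hz).2.1 (w2 z hz).2.2)
        nlinarith [mul_le_mul_of_nonneg_left i2 (show 0 ≤ M ^ 3 by positivity)]
      · obtain ⟨a1, a2, -, -⟩ := v2.bd z hz
        have a3 := (Q_bounds (u := v) m0 l0 a1 a2 (w2 z hz).2.1.self_of_nhds).2.2.1
        rw [v1 z hz, Function.comp_apply] at a3
        nlinarith [mul_le_mul_of_nonneg_left i2 (sq_nonneg (φ ((chartAt ℂ x).symm z)))]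
      · have a1 : ∀ s, ‖s - z‖ ≤ ρ → ‖s - chartAt ℂ x x‖ ≤ r := fun s hs =>
          mem_closedBall_iff_norm.1 (hz (mem_closedBall_iff_norm.2 hs))
        have a2 : ‖z - z‖ ≤ ρ / 2 := by simp; linarith
        refine (HB v τ w l S z (v2.mono a1) i2 (fun s hs => by
          rw [v1 s (a1 s hs)]; exact hS s hs) z a2
          (w2 z (a1 z (by linarith))).2.1.self_of_nhds).trans ?_
        have a3 := Real.quadratic_le_exp_of_nonneg (show 0 ≤ (B + 2) * l by positivity)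
        rw [mul_div_right_comm, ← mul_assoc]
        refine mul_le_mul_of_nonneg_right (le_trans ?_ a3) (sq_nonneg S)
        nlinarith [mul_nonneg B0 (sq_nonneg l), mul_nonneg B0 l0, sq_nonneg (B * l)]) y N hN
  exact ⟨A, fun φ l h1 h2 => H ⟨⟨φ, l⟩, h1, h2⟩⟩

theorem main [MeasurableSpace X] (μ : Measure X)
    (hσ : ∀ x, ContDiffOn ℝ ∞ (σ x) (chartAt ℂ x).target)
    (hσ0 : ∀ x, ∀ z ∈ (chartAt ℂ x).target, 0 < σ x z)
    (hμ : ∀ x, ∀ A ⊆ (chartAt ℂ x).target, MeasurableSet A →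
      μ ((chartAt ℂ x).symm '' A) = ∫⁻ z in A, ENNReal.ofReal (σ x z))
    (U : Set X) (hU : IsOpen U) (hne : U.Nonempty) : ∃ c L : ℝ, 0 < c ∧
      ∀ φ l, L ≤ l → φ ≠ 0 → Eig σ φ l → ENNReal.ofReal c ≤ μ {p ∈ U | 0 < φ p} := by
  obtain ⟨y, hy⟩ := hne
  set e := chartAt ℂ y with he
  have hV := e.isOpen_inter_preimage_symm hU
  obtain ⟨r, r0, hr⟩ := exists_ball hV (c := e y) ⟨mem_chart_target ℂ y, by
    rw [mem_preimage, e.left_inv (mem_chart_source ℂ y)]; exact hy⟩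
  obtain ⟨τ, w, m, M, m0, m1, M1, w1, w2, H⟩ :=
    pack e.open_target r0 (hr.trans inter_subset_left) (hσ y) (hσ0 y)
  obtain ⟨A, hA⟩ := base hσ hσ0 y (e.source ∩ e ⁻¹' ball (e y) (r / 3))
    ((e.isOpen_inter_preimage isOpen_ball).mem_nhds
      ⟨mem_chart_source ℂ y, mem_ball_self (by positivity)⟩)
  obtain ⟨M', M2, M3⟩ : ∃ M', M ≤ M' ∧ A ≤ M' * (r / 3) ^ 2 / 128 :=
    ⟨max M (A * 128 / (r / 3) ^ 2), le_max_left _ _, by
      rw [le_div_iff₀ (by norm_num), ← div_le_iff₀ (by positivity)]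
      exact le_max_right _ _⟩
  obtain ⟨η, L, η0, HL⟩ := local_thm m0 m1 (M1.trans M2) (show 0 < r / 3 by positivity)
  refine ⟨m * η, max L 1, by positivity, fun φ l hl h0 h => ?_⟩
  rw [max_le_iff] at hl
  obtain ⟨p, ⟨p1, p2⟩, p3⟩ := hA φ l h hl.2
  obtain ⟨v, v1, v2⟩ := H M' l _ M2 (h.1 y) (h.2 y)
  have p4 : ‖e p - e y‖ < r / 3 := mem_ball_iff_norm.1 p2
  have a1 : ∀ s, ‖s - e p‖ ≤ 2 * (r / 3) → ‖s - e y‖ ≤ r := fun s hs => by
    linarith [norm_sub_le_norm_sub_add_norm_sub s (e p) (e y)]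
  have a2 : v (e p) = φ p := by
    rw [v1 _ (by linarith), Function.comp_apply, e.left_inv p1]
  have a3 := HL v τ w l (e p) (v2.mono a1) w1
    (fun s hs => ⟨(w2 s (a1 s hs)).2.1, (w2 s (a1 s hs)).2.2.trans M2⟩) hl.1
    (fun k => h0 (funext fun x => by
      have := p3 x
      rw [← a2, k, abs_zero, mul_zero] at this
      exact abs_nonpos_iff.1 this))
    (fun z hz => by
      rw [a2, v1 z (a1 z hz)]
      exact (p3 _).trans (mul_le_mul_of_nonneg_right (Real.exp_le_exp.2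
        (mul_le_mul_of_nonneg_right M3 (by linarith [hl.2]))) (abs_nonneg _)))
  set S := {z | ‖z - e p‖ ≤ r / 3 ∧ 0 < v z}
  have hS : MeasurableSet S :=
    (measurableSet_le (measurable_id.sub_const _).norm measurable_const).inter
      (measurableSet_lt measurable_const v2.hW.continuous.measurable)
  have a4 : ∀ z ∈ S, ‖z - e y‖ ≤ r := fun z hz => a1 z (by linarith [hz.1])
  have a5 : ∀ z ∈ S, z ∈ e.target ∩ e.symm ⁻¹' U := fun z hz =>
    hr (mem_closedBall_iff_norm.2 (by linarith [a4 z hz]))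
  refine le_trans ?_ (measure_mono (s := e.symm '' S) ?_)
  · rw [hμ y S (fun z hz => (a5 z hz).1) hS, ENNReal.ofReal_mul m0.le]
    refine (mul_le_mul_right a3 _).trans ?_
    rw [← setLIntegral_const]
    exact setLIntegral_mono' hS fun z hz => ENNReal.ofReal_le_ofReal (w2 z (a4 z hz)).1
  · rintro _ ⟨z, hz, rfl⟩
    exact ⟨(a5 z hz).2, by simpa [v1 z (a4 z hz)] using hz.2⟩

omit [CompactSpace X] [PreconnectedSpace X] in
theorem Eig.neg {φ : X → ℝ} {l : ℝ} (h : Eig σ φ l) : Eig σ (-φ) l := by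
  refine ⟨fun x => (h.1 x).neg, fun x z hz => ?_⟩
  rw [show (-φ) ∘ (chartAt ℂ x).symm = -(φ ∘ (chartAt ℂ x).symm) from rfl,
    InnerProductSpace.laplacian_neg, Pi.neg_apply, h.2 x z hz, Pi.neg_apply, mul_neg]

end Pool.Agent.Lib.MP_a52643_an.QS
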