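import Pool.Agent.Lib.MP_a52643_an.QS.Bump

/-!
The local lemma: a normalised solution is positive on a set of definite area.
-/

namespace Pool.Agent.Lib.MP_a52643_an.QS

open Complex Filter Topology Metric MeasureTheory Set
open scoped ContDiff

variable {F W τ : ℂ → ℝ} {z : ℂ} {t r μ m M : ℝ}

theorem norm_in (ht : 0 < t) {s : ℂ} (hs : ‖s‖ ≤ 1) : ‖z + t • s - z‖ ≤ t := by
  rw [add_sub_cancel_left, norm_smul, Real.norm_of_nonneg ht.le]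
  nlinarith [norm_nonneg s]

theorem S2 (hF : Sm F) (ht : 0 < t) {H : ℝ} (h : ∀ s, ‖s - z‖ ≤ t → |Lap F s| ≤ H) :
    |(∫ s, F (z + t • s) * P 2 s) - cP 2 * F z| ≤ t ^ 2 * H * cP 2 := by
  have := U2 (smAf hF z t) 1 (H := t ^ 2 * H) fun s hs => by
    rw [Lap_Af hF, abs_mul, abs_of_nonneg (sq_nonneg t)]
    exact mul_le_mul_of_nonneg_left (h _ (norm_in ht hs)) (sq_nonneg t)
  simpa only [Af, smul_zero, add_zero] using this

theorem S1 (hF : Sm F) (ht : 0 < t) {v : ℂ} (hv : ‖v‖ ≤ 1) {H : ℝ}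
    (h : ∀ s, ‖s - z‖ ≤ t → |Lap (D v F) s| ≤ H) :
    cP 3 * (t * |D v F z|) ≤ 6 * (∫ s, |F (z + t • s)| * P 2 s) + t ^ 3 * H * cP 3 := by
  have := U1 (smAf hF z t) hv (H := t ^ 3 * H) fun s hs => by
    rw [D_Af hF, Lap_cmul (smAf (smD hF v) z t), Lap_Af (smD hF v), ← mul_assoc, abs_mul,
      abs_of_nonneg (by positivity), ← pow_succ']
    exact mul_le_mul_of_nonneg_left (h _ (norm_in ht hs)) (by positivity)
  simpa only [D_Af hF, Af, smul_zero, add_zero, abs_mul, abs_of_pos ht] using this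

theorem Pos_Af (ht : 0 < t) (F : ℂ → ℝ) (z : ℂ) (r : ℝ) :
    Pos r (Af z t F) = (t ^ 2)⁻¹ * volume.real {w | ‖w - z‖ ≤ t * r ∧ 0 < F w} := by
  have e : {s | ‖s‖ ≤ r ∧ 0 < Af z t F s} =
      (fun s => t • s) ⁻¹' ((fun s => z + s) ⁻¹' {w | ‖w - z‖ ≤ t * r ∧ 0 < F w}) := by
    ext s
    simp only [mem_setOf_eq, mem_preimage, Af, add_sub_cancel_left, norm_smul,
      Real.norm_of_nonneg ht.le, mul_le_mul_iff_right₀ ht]
  rw [Pos, e, Measure.real, Measure.addHaar_preimage_smul _ ht.ne', measure_preimage_add,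
    ENNReal.toReal_mul, ENNReal.toReal_ofReal (abs_nonneg _), finrank_real_complex,
    abs_of_nonneg (by positivity), Measure.real]

theorem Pos_Af_le (ht : 1 ≤ t) (F : ℂ → ℝ) : Pos 1 (Af 0 t F) ≤ Pos t F := by
  rw [Pos_Af (by linarith)]
  simp only [sub_zero, mul_one]
  exact mul_le_of_le_one_left measureReal_nonneg (inv_le_one_of_one_le₀ (one_le_pow₀ ht))

theorem scale_le (hF : Continuous F) (ht : 0 < t) (h : 2 * t ≤ r) :
    ∫ s, |F (0 + t • s)| * P 2 s ≤ 3 * (r / t) ^ 2 * ∫ s, |F (0 + r • s)| * P 3 s := by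
  have h2 : 2 ≤ r / t := by rwa [le_div_iff₀ ht]
  have h1 := Measure.integral_comp_smul volume (fun s => |F (0 + t • s)| * P 2 s) (r / t)
  rw [finrank_real_complex, abs_of_nonneg (by positivity), smul_eq_mul] at h1
  have h3 : ∫ s, |F (0 + t • (r / t) • s)| * P 2 ((r / t) • s) ≤
      3 * ∫ s, |F (0 + r • s)| * P 3 s := by
    rw [← integral_const_mul]
    refine integral_mono_of_nonneg
      (Eventually.of_forall fun s => mul_nonneg (abs_nonneg _) (P_nonneg _ _))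
      ((intP (by fun_prop) 2).const_mul _) (Eventually.of_forall fun s => ?_)
    simp only [smul_smul, mul_div_cancel₀ r ht.ne']
    rw [mul_left_comm]
    refine mul_le_mul_of_nonneg_left ?_ (abs_nonneg _)
    rcases le_total ‖(r / t) • s‖ 1 with h4 | h4
    · rw [norm_smul, Real.norm_of_nonneg (by linarith)] at h4
      have h5 : ‖s‖ ≤ 1 / 2 := by nlinarith [norm_nonneg s]
      have h6 : 3 / 4 ≤ 1 - ‖s‖ ^ 2 := by nlinarith [norm_nonneg s]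
      have h7 := pow_le_pow_left₀ (by norm_num) h6 3
      rw [P_in (s := s) (by linarith)]
      linarith [P_le_one 2 ((r / t) • s)]
    · rw [P_out h4]
      linarith [P_nonneg 3 s]
  rw [h1, inv_mul_le_iff₀ (by positivity)] at h3
  linarith

theorem small {X ε : ℝ} (hX : 0 ≤ X) (hε : 0 < ε) : ∃ δ, 0 < δ ∧ δ ≤ 1 ∧ δ * X ≤ ε := by
  refine ⟨min 1 (ε / (X + 1)), by positivity, min_le_left _ _, ?_⟩
  have h := (le_div_iff₀ (by linarith)).1 (min_le_right 1 (ε / (X + 1)))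
  have : 0 < min 1 (ε / (X + 1)) := by positivity
  nlinarith

/-- A solution of the equation near a closed disc, with bounds on the coefficient. -/
structure Sol (W τ : ℂ → ℝ) (μ m M : ℝ) (z : ℂ) (r : ℝ) : Prop where
  hW : Sm W
  hτ : Sm τ
  bd : ∀ s, ‖s - z‖ ≤ r → m ≤ τ s ∧ τ s ≤ M ∧ |D 1 τ s| ≤ M ∧ |D I τ s| ≤ M
  eq : ∀ s, ‖s - z‖ ≤ r → ∀ᶠ y in 𝓝 s, Lap W y = -μ * (τ y * W y)

theorem Sol.lap (h : Sol W τ μ m M z r) (hm : 0 ≤ m) (hμ : 0 ≤ μ) {s : ℂ} (hs : ‖s - z‖ ≤ r)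
    {K : ℝ} (hK : |W s| ≤ K) : |Lap W s| ≤ μ * M * K := by
  obtain ⟨a1, a2, -, -⟩ := h.bd s hs
  rw [(h.eq s hs).self_of_nhds, abs_mul, abs_mul, abs_neg, abs_of_nonneg hμ,
    abs_of_nonneg (hm.trans a1), mul_assoc]
  exact mul_le_mul_of_nonneg_left (mul_le_mul a2 hK (abs_nonneg _) (by linarith)) hμ

theorem Sol.lapD (h : Sol W τ μ m M z r) (hm : 0 ≤ m) (hμ : 0 ≤ μ) {s : ℂ} (hs : ‖s - z‖ ≤ r)
    {K L : ℝ} (hK : |W s| ≤ K) {v : ℂ} (hv : v = 1 ∨ v = I) (hL : |D v W s| ≤ L) :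
    |Lap (D v W) s| ≤ μ * M * (K + L) := by
  obtain ⟨a1, a2, a3, a4⟩ := h.bd s hs
  have a5 : |D v τ s| ≤ M := by rcases hv with rfl | rfl <;> assumption
  rw [Lap_D h.hW, D_congr (h.eq s hs), D_cmul (h.hτ.mul h.hW), D_mul h.hτ h.hW]
  simp only
  rw [abs_mul, abs_neg, abs_of_nonneg hμ, mul_assoc]
  refine mul_le_mul_of_nonneg_left ((abs_add_le _ _).trans ?_) hμ
  rw [abs_mul, abs_mul, abs_of_nonneg (hm.trans a1), mul_add]
  exact add_le_add (mul_le_mul a5 hK (abs_nonneg _) (by linarith))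
    (mul_le_mul a2 hL (abs_nonneg _) (by linarith))

theorem norm_dir {v : ℂ} (hv : v = 1 ∨ v = I) : ‖v‖ ≤ 1 := by rcases hv with rfl | rfl <;> simp

theorem Gr_small (hm : 0 < m) (hm1 : m ≤ 1) (h : ∀ v, v = 1 ∨ v = I → |D v W 0| ≤ m / 2) :
    Gr W 0 / m ≤ 1 / 2 := by
  have h1 := sq_le_sq' (abs_le.1 (h 1 (.inl rfl))).1 (abs_le.1 (h 1 (.inl rfl))).2
  have h2 := sq_le_sq' (abs_le.1 (h I (.inr rfl))).1 (abs_le.1 (h I (.inr rfl))).2
  rw [div_le_iff₀ hm, Gr]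
  nlinarith

/-- Small frequency: the Harnack inequality for the gradient. -/
theorem LA1 (hm : 0 < m) (hm1 : m ≤ 1) (hM : 0 ≤ M) {C : ℝ} (hC : 0 ≤ C) :
    ∃ ρ, 1 ≤ ρ ∧ ∀ L, 0 ≤ L → ∃ μ₀ η, 0 < μ₀ ∧ 0 < η ∧ ∀ W τ μ, Sol W τ μ m M 0 ρ → 0 ≤ μ →
      μ ≤ μ₀ → (∀ s, ‖s - 0‖ ≤ ρ → |D 1 W s| ≤ L ∧ |D I W s| ≤ L) → |W 0| ≤ C →
      1 ≤ Gr W 0 / m + μ * W 0 ^ 2 / 2 → η ≤ Pos ρ W := by
  have c2 : 0 < cP 2 := cP_pos 1
  have c3 : 0 < cP 3 := cP_pos 2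
  obtain ⟨ρ, ρ1, ρ2⟩ : ∃ ρ, 1 ≤ ρ ∧ 6 * (cP 2 * C) ≤ cP 3 * m / 6 * ρ := by
    refine ⟨1 + 36 * (cP 2 * C) / (cP 3 * m), by
      linarith [show 0 ≤ 36 * (cP 2 * C) / (cP 3 * m) by positivity], ?_⟩
    rw [mul_add, show cP 3 * m / 6 * (36 * (cP 2 * C) / (cP 3 * m)) = 6 * (cP 2 * C) by
      field_simp; ring]
    linarith [show 0 ≤ cP 3 * m / 6 * 1 by positivity]
  refine ⟨ρ, ρ1, fun L hL => ?_⟩
  set K := C + 2 * ρ * L with hK
  have K0 : 0 ≤ K := by positivity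
  obtain ⟨μ₁, a1, -, a2⟩ := small (X := 6 * (ρ ^ 2 * (M * K) * cP 2) +
    ρ ^ 3 * (M * (K + L)) * cP 3) (by positivity) (show 0 < cP 3 * m / 6 by positivity)
  obtain ⟨μ₂, a3, -, a4⟩ := small (sq_nonneg C) one_half_pos
  obtain ⟨η, a5, -, a6⟩ := small (X := 12 * K) (by positivity)
    (show 0 < cP 3 * m / 6 by positivity)
  refine ⟨min μ₁ μ₂, η, lt_min a1 a3, a5, fun W τ μ h μ0 μ1 hD h0 hn => ?_⟩
  by_contra hc
  have ρ0 : 0 < ρ := by linarith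
  have cW := h.hW.continuous
  have hWK : ∀ s, ‖s - 0‖ ≤ ρ → |W s| ≤ K := fun s hs => by
    linarith [sub_le h.hW hD hs, abs_sub_abs_le_abs_sub (W s) (W 0)]
  have b1 := S2 h.hW ρ0 fun s hs => h.lap hm.le μ0 hs (hWK s hs)
  have b2 := int_abs (F := Af 0 ρ W) (f := fun _ => 1) (smAf h.hW 0 ρ).continuous
    continuous_const 1
  have b3 := int_pos_le (F := Af 0 ρ W) (smAf h.hW 0 ρ).continuous
    (fun s hs => hWK _ (norm_in ρ0 hs)) 1
  have b4 := mul_le_mul_of_nonneg_left ((Pos_Af_le ρ1 W).trans (not_le.1 hc).le) K0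
  simp only [Af, mul_one, Nat.reduceAdd] at b2 b3
  have b5 := mul_le_mul_of_nonneg_left (abs_le.1 h0).1 c2.le
  have b6 : μ * (6 * (ρ ^ 2 * (M * K) * cP 2) + ρ ^ 3 * (M * (K + L)) * cP 3) ≤ cP 3 * m / 6 :=
    (mul_le_mul_of_nonneg_right (μ1.trans (min_le_left _ _)) (by positivity)).trans a2
  have b7 := Gr_small (W := W) hm hm1 fun v hv => by
    have b8 := S1 h.hW ρ0 (norm_dir hv) fun s hs => h.lapD hm.le μ0 hs (hWK s hs) hv (L := L)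
      (by rcases hv with rfl | rfl; exacts [(hD s hs).1, (hD s hs).2])
    have b9 : cP 3 * m / 6 * 1 ≤ cP 3 * m / 6 * ρ := by gcongr
    refine le_of_mul_le_mul_left ?_ (mul_pos c3 ρ0)
    linarith [(abs_le.1 b1).1]
  have b8 : W 0 ^ 2 ≤ C ^ 2 := sq_le_sq' (abs_le.1 h0).1 (abs_le.1 h0).2
  have b9 := mul_le_mul (μ1.trans (min_le_right _ _)) b8 (sq_nonneg _) a3.le
  linarith

/-- Frequency bounded below. -/
theorem LA2 (hm : 0 < m) (hm1 : m ≤ 1) (hM : 0 ≤ M) {C μ₀ : ℝ} (hC : 0 ≤ C) (hμ₀ : 0 < μ₀) :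
    ∃ R, 1 ≤ R ∧ ∀ L, 0 ≤ L → ∃ η, 0 < η ∧ ∀ W τ μ, Sol W τ μ m M 0 R → μ₀ ≤ μ →
      μ ≤ 1 → (∀ s, ‖s - 0‖ ≤ R → |D 1 W s| ≤ L ∧ |D I W s| ≤ L) → |W 0| ≤ C →
      1 ≤ Gr W 0 / m + μ * W 0 ^ 2 / 2 → η ≤ Pos R W := by
  have c2 : cP 3 ≤ cP 2 := cP_succ_le 1
  have c3 : 0 < cP 3 := cP_pos 2
  obtain ⟨R, R1, R2⟩ : ∃ R : ℝ, 2 ≤ R ∧ 28 ≤ R * (μ₀ * m) := by
    refine ⟨2 + 28 / (μ₀ * m), by linarith [show 0 ≤ 28 / (μ₀ * m) by positivity], ?_⟩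
    rw [add_mul, div_mul_cancel₀ _ (by positivity)]
    linarith [show 0 ≤ μ₀ * m by positivity]
  refine ⟨R, by linarith, fun L hL => ?_⟩
  have R0 : 0 < R := by linarith
  set K := C + 2 * R * L with hK
  have K0 : 0 ≤ K := by positivity
  obtain ⟨t, t0, t1, t2⟩ := small (X := M * (K + L)) (by positivity)
    (show 0 < m / 4 by positivity)
  obtain ⟨η, a5, -, a6⟩ := small (X := (R / t) ^ 2 * ((R ^ 2 * M + 24) * K)) (by positivity)
    (show 0 < cP 3 * (t * m) / 24 by positivity)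
  refine ⟨η, a5, fun W τ μ h μ1 μ2 hD h0 hn => ?_⟩
  by_contra hc
  have μ0 : 0 ≤ μ := by linarith
  have cW := h.hW.continuous
  have cτ := h.hτ.continuous
  have hWK : ∀ s, ‖s - 0‖ ≤ R → |W s| ≤ K := fun s hs => by
    linarith [sub_le h.hW hD hs, abs_sub_abs_le_abs_sub (W s) (W 0)]
  have b1 := U3 (smAf h.hW 0 R) (ν := fun s => R ^ 2 * (μ * τ (0 + R • s))) (by fun_prop)
    (N := R ^ 2 * M) (K := K) fun s hs => by
      have d0 := norm_in (z := 0) R0 hs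
      obtain ⟨d1, d2, -, -⟩ := h.bd _ d0
      have d3 := mul_le_mul μ1 d1 hm.le μ0
      refine ⟨?_, ?_, ?_, hWK _ d0⟩
      · nlinarith [mul_le_mul_of_nonneg_left d3 R0.le]
      · exact mul_le_mul_of_nonneg_left (by nlinarith) (sq_nonneg R)
      · rw [Lap_Af h.hW, (h.eq _ d0).self_of_nhds, Af]; ring
  have b2 := mul_le_mul_of_nonneg_left
    ((Pos_Af_le (show 1 ≤ R by linarith) W).trans (not_le.1 hc).le)
    (show 0 ≤ (R ^ 2 * M + 24) * K by positivity)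
  have b3 := scale_le cW t0 (show 2 * t ≤ R by linarith)
  simp only [Af] at b1
  have b4 : ∫ s, |W (0 + R • s)| * P 3 s ≤ (R ^ 2 * M + 24) * K * η / 3 := by
    have : 0 ≤ (R ^ 2 * M + 24) * K * η := by positivity
    linarith
  have b5 : ∫ s, |W (0 + t • s)| * P 2 s ≤ cP 3 * (t * m) / 24 := by
    linarith [mul_le_mul_of_nonneg_left b4 (show 0 ≤ 3 * (R / t) ^ 2 by positivity)]
  have tR : ∀ s : ℂ, ‖s - 0‖ ≤ t → ‖s - 0‖ ≤ R := fun s hs => by linarith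
  have b6 : t ^ 2 * (μ * M * (K + L)) ≤ m / 4 := by
    have : t * μ ≤ 1 := mul_le_one₀ t1 μ0 μ2
    nlinarith [show 0 ≤ t * (M * (K + L)) by positivity]
  have b7 := Gr_small (W := W) hm hm1 fun v hv => by
    have b8 := S1 h.hW t0 (norm_dir hv) fun s hs =>
      h.lapD hm.le μ0 (tR s hs) (hWK s (tR s hs)) hv (L := L)
      (by rcases hv with rfl | rfl; exacts [(hD s (tR s hs)).1, (hD s (tR s hs)).2])
    refine le_of_mul_le_mul_left ?_ (mul_pos c3 t0)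
    linarith [mul_le_mul_of_nonneg_left b6 (mul_pos c3 t0).le]
  have b8 := S2 h.hW t0 fun s hs => h.lap hm.le μ0 (tR s hs)
    ((hWK s (tR s hs)).trans (le_add_of_nonneg_right hL))
  have b9 : |∫ s, W (0 + t • s) * P 2 s| ≤ ∫ s, |W (0 + t • s)| * P 2 s := by
    simpa only [abs_mul, abs_of_nonneg (P_nonneg _ _)] using
      abs_integral_le_integral_abs (μ := volume) (f := fun s => W (0 + t • s) * P 2 s)
  have d1 : cP 3 * (t * m) ≤ cP 2 * 1 :=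
    mul_le_mul c2 (mul_le_one₀ t1 hm.le hm1) (by positivity) (by linarith)
  have d2 := mul_le_mul_of_nonneg_right (b6.trans (show m / 4 ≤ 1 / 4 by linarith))
    (show 0 ≤ cP 2 by linarith)
  have d3 : |W 0| ≤ 1 / 2 := by
    refine le_of_mul_le_mul_left ?_ (show 0 < cP 2 by linarith)
    rw [← abs_of_pos (show 0 < cP 2 by linarith), ← abs_mul,
      abs_of_pos (show 0 < cP 2 by linarith)]
    rw [abs_le] at b8 b9 ⊢
    constructor <;> linarith [b8.1, b8.2, b9.1, b9.2]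
  have d4 : W 0 ^ 2 ≤ (1 / 2) ^ 2 := sq_le_sq' (abs_le.1 d3).1 (abs_le.1 d3).2
  have d5 := mul_le_mul μ2 d4 (sq_nonneg _) zero_le_one
  linarith

end Pool.Agent.Lib.MP_a52643_an.QS
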