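import Pool.Agent.Lib.MP_a52643_an.QS.Step

/-!
The theorem in one chart.
-/

namespace Pool.Agent.Lib.MP_a52643_an.QS

open Complex Filter Topology Metric MeasureTheory Set
open scoped ContDiff Laplacian

variable {u σ w : ℂ → ℝ} {x y z z₀ : ℂ} {r l m M : ℝ}

/-- The interior gradient estimate. -/
theorem grad_bound (hM : 0 ≤ M) (hr : 0 < r) : ∃ A : ℝ, 0 ≤ A ∧ ∀ (u σ : ℂ → ℝ) (l m U : ℝ)
    (z₀ : ℂ), Sol u σ l m M z₀ r → 0 ≤ m → 1 ≤ l → (∀ z, ‖z - z₀‖ ≤ r → |u z| ≤ U) →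
    ∀ z, ‖z - z₀‖ ≤ r / 2 → |D 1 u z| + |D I u z| ≤ A * l * U := by
  have c2 : 0 < cP 2 := cP_pos 1
  have c3 : 0 < cP 3 := cP_pos 2
  refine ⟨2 / r * ((24 * cP 2 / cP 3 + r) * (2 + 8 * M * r ^ 2)), by positivity,
    fun u σ l m U z₀ h hm hl hU z hz => ?_⟩
  have c0 := h.hW.continuous
  have d1 := (smD h.hW 1).continuous
  have d2 := (smD h.hW I).continuous
  have U0 : 0 ≤ U := (abs_nonneg _).trans (hU z₀ (by simpa using hr.le))
  obtain ⟨p, hp, hp'⟩ := (isCompact_closedBall z₀ r).exists_isMaxOn ⟨z₀, mem_closedBall_self hr.le⟩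
    (f := fun s => (r - ‖s - z₀‖) * (|D 1 u s| + |D I u s|)) (by fun_prop)
  rw [mem_closedBall_iff_norm] at hp
  have hmax : ∀ s, ‖s - z₀‖ ≤ r → (r - ‖s - z₀‖) * (|D 1 u s| + |D I u s|) ≤
      (r - ‖p - z₀‖) * (|D 1 u p| + |D I u p|) := fun s hs => hp' (mem_closedBall_iff_norm.2 hs)
  set d := r - ‖p - z₀‖ with hd
  set g := |D 1 u p| + |D I u p| with hg
  have g0 : 0 ≤ g := by positivity
  have T0 : 2 ≤ 2 + 8 * l * M * r ^ 2 := by linarith [show 0 ≤ 8 * l * M * r ^ 2 by positivity]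
  have key : d * g ≤ (24 * cP 2 / cP 3 + r) * U * (2 + 8 * l * M * r ^ 2) := by
    rcases (show 0 ≤ d by linarith).eq_or_lt with e | d0
    · rw [← e, zero_mul]; positivity
    obtain ⟨t, t0, t1⟩ : ∃ t, 0 < t ∧ t * (2 + 8 * l * M * r ^ 2) = d :=
      ⟨d / (2 + 8 * l * M * r ^ 2), by positivity, div_mul_cancel₀ _ (by linarith)⟩
    have dr : d ≤ r := by linarith [norm_nonneg (p - z₀)]
    have t2 : 2 * t ≤ d := by nlinarith
    have t3 : 8 * (t ^ 2 * (l * M)) ≤ 1 := by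
      refine le_of_mul_le_mul_left ?_ (pow_pos hr 2)
      nlinarith [mul_le_mul (show t ≤ r by linarith)
        (show t * (8 * l * M * r ^ 2) ≤ r by linarith) (by positivity) hr.le]
    have n1 : ∀ s, ‖s - p‖ ≤ t → ‖s - z₀‖ ≤ r ∧ |D 1 u s| + |D I u s| ≤ 2 * g := fun s hs => by
      have a1 := norm_sub_le_norm_sub_add_norm_sub s p z₀
      refine ⟨by linarith, le_of_mul_le_mul_left ?_ d0⟩
      nlinarith [hmax s (by linarith), abs_nonneg (D 1 u s), abs_nonneg (D I u s)]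
    have n2 := abs_int_le (f := fun s => |u (p + t • s)|) (H := U) (fun s hs => by
      rw [abs_abs]; exact hU _ (n1 _ (norm_in t0 hs)).1) 1
    have n3 : ∀ v, v = 1 ∨ v = I → cP 3 * (t * |D v u p|) ≤
        6 * (U * cP 2) + t ^ 3 * (l * M * (U + 2 * g)) * cP 3 := fun v hv => by
      have := S1 h.hW t0 (norm_dir hv) fun s hs => h.lapD hm (by linarith) (n1 s hs).1
        (hU s (n1 s hs).1) hv (L := 2 * g) (by
          rcases hv with rfl | rfl <;>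
            linarith [(n1 s hs).2, abs_nonneg (D 1 u s), abs_nonneg (D I u s)])
      linarith [(abs_le.1 n2).2]
    have n4 : t * g ≤ (24 * cP 2 / cP 3 + r) * U := by
      refine le_of_mul_le_mul_left ?_ c3
      have e : cP 3 * ((24 * cP 2 / cP 3 + r) * U) = 24 * (U * cP 2) + cP 3 * (r * U) := by
        field_simp
      have a1 := mul_le_mul_of_nonneg_left t3 (show 0 ≤ cP 3 * (t * (U + 2 * g)) by positivity)
      have a2 : cP 3 * (t * U) ≤ cP 3 * (r * U) := by gcongr; linarith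
      have a3 : 0 ≤ cP 3 * (r * U) := by positivity
      have a4 : cP 3 * (t * g) = cP 3 * (t * |D 1 u p|) + cP 3 * (t * |D I u p|) := by
        rw [hg]; ring
      linarith [n3 1 (.inl rfl), n3 I (.inr rfl)]
    rw [← t1, mul_right_comm]
    exact mul_le_mul_of_nonneg_right n4 (by linarith)
  have h1 : r / 2 * (|D 1 u z| + |D I u z|) ≤ d * g :=
    (mul_le_mul_of_nonneg_right (by linarith) (by positivity)).trans (hmax z (by linarith))
  have h2 : (24 * cP 2 / cP 3 + r) * U * (2 + 8 * l * M * r ^ 2) ≤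
      (24 * cP 2 / cP 3 + r) * U * (l * (2 + 8 * M * r ^ 2)) :=
    mul_le_mul_of_nonneg_left (by linarith) (by positivity)
  refine le_of_mul_le_mul_left ((h1.trans (key.trans h2)).trans (le_of_eq ?_)) (half_pos hr)
  field_simp

theorem Q_le (hm : 0 < m) (hM : 0 ≤ M) (hr : 0 < r) : ∃ B : ℝ, 0 ≤ B ∧ ∀ (u σ w : ℂ → ℝ)
    (l U : ℝ) (z₀ : ℂ), Sol u σ l m M z₀ r → 1 ≤ l → (∀ z, ‖z - z₀‖ ≤ r → |u z| ≤ U) →
    ∀ z, ‖z - z₀‖ ≤ r / 2 → w z * σ z = 1 → Q u w l z ≤ (B * l + 1) * (l * U ^ 2 / 2) := by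
  obtain ⟨A, A0, H⟩ := grad_bound hM hr
  refine ⟨2 * A ^ 2 / m, by positivity, fun u σ w l U z₀ h hl hU z hz hw => ?_⟩
  obtain ⟨a1, a2, -, -⟩ := h.bd z (by linarith)
  have a3 := (Q_bounds (u := u) hm (show 0 ≤ l by linarith) a1 a2 hw).2.2.2
  have a4 := pow_le_pow_left₀ (by positivity) (H u σ l m U z₀ h hm.le hl hU z hz) 2
  have a5 : Gr u z ≤ (A * l * U) ^ 2 := by
    rw [Gr, ← sq_abs (D 1 u z), ← sq_abs (D I u z)]
    nlinarith [mul_nonneg (abs_nonneg (D 1 u z)) (abs_nonneg (D I u z))]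
  have a6 := div_le_div_of_nonneg_right a5 hm.le
  have a7 := pow_le_pow_left₀ (abs_nonneg _) (hU z (by linarith)) 2
  rw [sq_abs] at a7
  have a8 : (2 * A ^ 2 / m * l + 1) * (l * U ^ 2 / 2) = (A * l * U) ^ 2 / m + l * U ^ 2 / 2 := by
    ring
  linarith [mul_le_mul_of_nonneg_left a7 (show 0 ≤ l by linarith)]

theorem dong' (hm : 0 < m) (hl : 0 ≤ l) (h : Sol u σ l m M z₀ r) (hw : Sm w)
    (hz : ‖z - z₀‖ ≤ r) (h1 : ∀ᶠ y in 𝓝 z, w y * σ y = 1) (h2 : Gr w z - w z * Lap w z ≤ M) :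
    -(M * l + M ^ 3) * Q u w l z ^ 2 ≤ Q u w l z * Lap (Q u w l) z - Gr (Q u w l) z := by
  obtain ⟨a1, a2, -, -⟩ := h.bd z hz
  have a3 := h1.self_of_nhds
  have a4 := (Q_bounds (u := u) hm hl a1 a2 a3).1
  have M0 : 0 < M := by linarith
  refine dong h.hW hw a4 hl (by positivity) ?_ ?_
  · filter_upwards [h.eq z hz, h1] with y e1 e2
    rw [e1]
    linear_combination (-l * u y) * e2
  · have b1 : 1 ≤ w z * M := a3 ▸ mul_le_mul_of_nonneg_left a2 a4.le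
    nlinarith [mul_le_mul_of_nonneg_left b1 (mul_nonneg a4.le hl),
      mul_le_mul_of_nonneg_left (one_le_pow₀ b1 (n := 2)) M0.le]

theorem exp_big {B γ : ℝ} (hγ : 0 < γ) (hl : 0 ≤ l) (h : 2 * B / γ ^ 2 ≤ l) :
    B * l + 1 ≤ Real.exp (γ * l) := by
  rw [div_le_iff₀ (by positivity)] at h
  nlinarith [Real.quadratic_le_exp_of_nonneg (mul_nonneg hγ.le hl), mul_nonneg hγ.le hl,
    mul_le_mul_of_nonneg_left h hl]

/-- The positivity set has definite area near a point where the solution is not too small. -/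
theorem local_thm (hm : 0 < m) (hm1 : m ≤ 1) (hM : 1 ≤ M) (hr : 0 < r) : ∃ η L : ℝ, 0 < η ∧
    ∀ (u σ w : ℂ → ℝ) (l : ℝ) (z₀ : ℂ), Sol u σ l m M z₀ (2 * r) → Sm w →
      (∀ s, ‖s - z₀‖ ≤ 2 * r → (∀ᶠ y in 𝓝 s, w y * σ y = 1) ∧ Gr w s - w s * Lap w s ≤ M) →
      L ≤ l → u z₀ ≠ 0 →
      (∀ z, ‖z - z₀‖ ≤ 2 * r → |u z| ≤ Real.exp (M * r ^ 2 / 128 * l) * |u z₀|) →
      ENNReal.ofReal η ≤ volume {z | ‖z - z₀‖ ≤ r ∧ 0 < u z} := by
  obtain ⟨R, η, η0, H⟩ := at_contact hm hm1 hM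
  obtain ⟨B, B0, HB⟩ := Q_le hm (show 0 ≤ M by linarith) (show 0 < 2 * r by linarith)
  refine ⟨η * (r ^ 2 / 64) / 64,
    max (max (M ^ 2) (2 * B / (M * r ^ 2 / 64) ^ 2)) ((2 * R / r) ^ 2), by positivity,
    fun u σ w l z₀ h hw hw' hL h0 hg => ?_⟩
  simp only [max_le_iff] at hL
  obtain ⟨⟨L1, L2⟩, L3⟩ := hL
  have l1 : 1 ≤ l := by nlinarith
  have l0 : 0 ≤ l := by linarith
  have r2 : ∀ s : ℂ, ‖s - z₀‖ ≤ r → ‖s - z₀‖ ≤ 2 * r := fun s hs => by linarith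
  have hw1 : ∀ s, ‖s - z₀‖ ≤ r → w s * σ s = 1 := fun s hs => (hw' s (r2 s hs)).1.self_of_nhds
  have z0 : ‖z₀ - z₀‖ ≤ r := by simpa using hr.le
  obtain ⟨a1, a2, -, -⟩ := h.bd z₀ (r2 _ z0)
  have a3 := (Q_bounds (u := u) hm l0 a1 a2 (hw1 _ z0)).2.2.1
  have a4 : 0 < Q u w l z₀ := lt_of_lt_of_le (by positivity) a3
  have b0 : 0 < M * l := by positivity
  have a5 : ∀ z, ‖z - z₀‖ ≤ r →
      Q u w l z ≤ Real.exp (M * l * r ^ 2 / 32) * Q u w l z₀ := fun z hz => by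
    refine (HB u σ w l _ z₀ h l1 hg z (by linarith) (hw1 z hz)).trans ?_
    rw [mul_pow, sq_abs, ← Real.exp_nat_mul, show M * l * r ^ 2 / 32 =
      M * r ^ 2 / 64 * l + (2 : ℕ) * (M * r ^ 2 / 128 * l) by push_cast; ring, Real.exp_add,
      mul_assoc]
    refine mul_le_mul (exp_big (by positivity) l0 L2) ?_ (by positivity) (by positivity)
    linarith [mul_le_mul_of_nonneg_left a3 (Real.exp_pos ((2 : ℕ) * (M * r ^ 2 / 128 * l))).le]
  have a6 := abp (smQ h.hW hw l) b0 hr a4 a5 fun z hz => by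
    refine le_trans (mul_le_mul_of_nonneg_right ?_ (sq_nonneg _))
      (dong' hm l0 h hw (r2 z hz) (hw' z (r2 z hz)).1 (hw' z (r2 z hz)).2)
    nlinarith [mul_le_mul_of_nonneg_left L1 (show 0 ≤ M by linarith)]
  have hS : MeasurableSet {z | ‖z - z₀‖ ≤ r ∧ 0 < u z} :=
    (measurableSet_le (measurable_id.sub_const z₀).norm measurable_const).inter
      (measurableSet_lt measurable_const h.hW.continuous.measurable)
  have a7 := cover hS η0.le (R := r / 2) (E := {y | ∃ x, Con (Q u w l) (M * l) z₀ r y x})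
    fun y ⟨x, hc⟩ => by
      obtain ⟨c1, c2⟩ := hc.near b0 hr a4 a5
      obtain ⟨s, s0, s1, s2⟩ := H u σ w l √l r z₀ y x (h.mono r2) hw1 hc c1 c2
        (Real.one_le_sqrt.2 l1) (Real.sq_sqrt l0) (by
          have := Real.le_sqrt_of_sq_le L3
          rw [div_le_iff₀ hr] at this
          linarith)
      refine ⟨s, s0, s1, (ENNReal.ofReal_le_of_le_toReal s2).trans (measure_mono fun p hp => ?_)⟩
      refine ⟨⟨?_, hp.2⟩, mem_closedBall_iff_norm.2 hp.1⟩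
      linarith [norm_sub_le_norm_sub_add_norm_sub p y z₀, hc.1, hp.1,
        norm_sub_le_norm_sub_add_norm_sub y x z₀]
  have a8 := (mul_le_mul_right a6 _).trans a7
  rw [← ENNReal.ofReal_mul η0.le] at a8
  rw [ENNReal.ofReal_div_of_pos (by norm_num), ENNReal.ofReal_ofNat]
  exact ENNReal.div_le_of_le_mul' a8

/-- Global smooth data for the equation on a disc of a chart. -/
theorem pack {V : Set ℂ} (hV : IsOpen V) {c : ℂ} (hr : 0 < r) (hc : closedBall c (3 * r) ⊆ V)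
    (hσ : ContDiffOn ℝ ∞ σ V) (h0 : ∀ z ∈ V, 0 < σ z) : ∃ (τ w : ℂ → ℝ) (m M : ℝ), 0 < m ∧
      m ≤ 1 ∧ 1 ≤ M ∧ Sm w ∧ (∀ s, ‖s - c‖ ≤ r → m ≤ σ s ∧ (∀ᶠ y in 𝓝 s, w y * τ y = 1) ∧
        Gr w s - w s * Lap w s ≤ M) ∧
      ∀ (M' l : ℝ) (u : ℂ → ℝ), M ≤ M' → ContDiffOn ℝ ∞ u V → (∀ z ∈ V, Δ u z = -l * σ z * u z) →
        ∃ v, (∀ s, ‖s - c‖ ≤ r → v s = u s) ∧ Sol v τ l m M' c r := by
  obtain ⟨τ, t1, t2⟩ := extend hV hr hc hσ
  obtain ⟨w, w1, w2⟩ := extend hV hr hc (hσ.inv fun z hz => (h0 z hz).ne')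
  have b1 : ∀ s, ‖s - c‖ ≤ r → s ∈ ball c (2 * r) := fun s hs =>
    mem_ball_iff_norm.2 (by linarith)
  have b2 : ∀ s ∈ ball c (2 * r), s ∈ V := fun s hs =>
    hc (closedBall_subset_closedBall (by linarith) (ball_subset_closedBall hs))
  have c1 := t1.continuous
  have c2 := (smD t1 1).continuous
  have c3 := (smD t1 I).continuous
  have c4 := w1.continuous
  have c5 := (smGr w1).continuous
  have c6 := (smLap w1).continuous
  obtain ⟨p, p1, p2⟩ := (isCompact_closedBall c r).exists_isMinOn ⟨c, mem_closedBall_self hr.le⟩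
    c1.continuousOn
  obtain ⟨K, hK⟩ := (isCompact_closedBall c r).exists_bound_of_continuousOn
    (f := fun s => |τ s| + |D 1 τ s| + |D I τ s| + |Gr w s - w s * Lap w s|) (by fun_prop)
  have p3 := b1 p (mem_closedBall_iff_norm.1 p1)
  have k : ∀ s, ‖s - c‖ ≤ r → min 1 (τ p) ≤ τ s ∧ τ s ≤ max 1 K ∧ |D 1 τ s| ≤ max 1 K ∧
      |D I τ s| ≤ max 1 K ∧ Gr w s - w s * Lap w s ≤ max 1 K := fun s hs => by
    have k1 := ((le_abs_self _).trans (hK s (mem_closedBall_iff_norm.2 hs))).trans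
      (le_max_right 1 K)
    refine ⟨(min_le_right _ _).trans (p2 (mem_closedBall_iff_norm.2 hs)), ?_, ?_, ?_, ?_⟩ <;>
      linarith [abs_nonneg (τ s), abs_nonneg (D 1 τ s), abs_nonneg (D I τ s), le_abs_self (τ s),
        abs_nonneg (Gr w s - w s * Lap w s), le_abs_self (Gr w s - w s * Lap w s)]
  refine ⟨τ, w, min 1 (τ p), max 1 K, lt_min one_pos (t2 p p3 ▸ h0 p (b2 p p3)), min_le_left _ _,
    le_max_left _ _, w1, fun s hs => ⟨t2 s (b1 s hs) ▸ (k s hs).1, ?_, (k s hs).2.2.2.2⟩,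
    fun M' l u hM hu he => ?_⟩
  · filter_upwards [isOpen_ball.mem_nhds (b1 s hs)] with y hy
    rw [t2 y hy, w2 y hy]
    exact inv_mul_cancel₀ (h0 y (b2 y hy)).ne'
  obtain ⟨v, v1, v2⟩ := extend hV hr hc hu
  refine ⟨v, fun s hs => v2 s (b1 s hs), v1, t1, fun s hs => ?_, fun s hs => ?_⟩
  · obtain ⟨k1, k2, k3, k4, -⟩ := k s hs
    exact ⟨k1, k2.trans hM, k3.trans hM, k4.trans hM⟩
  · filter_upwards [isOpen_ball.mem_nhds (b1 s hs)] with y hy
    have e : v =ᶠ[𝓝 y] u := by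
      filter_upwards [isOpen_ball.mem_nhds hy] with a ha using v2 a ha
    rw [← laplacian_eq v1, (InnerProductSpace.laplacian_congr_nhds e).self_of_nhds,
      he y (b2 y hy), t2 y hy, v2 y hy, mul_assoc]

end Pool.Agent.Lib.MP_a52643_an.QS
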