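import Pool.Agent.Lib.MP_a52643_an.QS.Local
import Pool.Agent.Lib.MP_a52643_an.QS.ABP

/-!
Rescaling at a contact point.
-/

namespace Pool.Agent.Lib.MP_a52643_an.QS

open Complex Filter Topology Metric MeasureTheory Set
open scoped ContDiff

variable {u σ w : ℂ → ℝ} {x y z z₀ : ℂ} {r l m M : ℝ}

theorem Sol.mono (h : Sol u σ l m M z₀ r) {ρ : ℝ} (hs : ∀ s, ‖s - z‖ ≤ ρ → ‖s - z₀‖ ≤ r) :
    Sol u σ l m M z ρ :=
  ⟨h.hW, h.hτ, fun s k => h.bd s (hs s k), fun s k => h.eq s (hs s k)⟩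

/-- The local lemma. -/
theorem LA (hm : 0 < m) (hm1 : m ≤ 1) (hM : 0 ≤ M) {C : ℝ} (hC : 0 ≤ C) (L : ℝ → ℝ)
    (hL : ∀ ρ, 0 ≤ L ρ) : ∃ R η, 1 ≤ R ∧ 0 < η ∧ ∀ W τ μ, Sol W τ μ m M 0 R → 0 ≤ μ → μ ≤ 1 →
      (∀ ρ s, ρ ≤ R → ‖s - 0‖ ≤ ρ → |D 1 W s| ≤ L ρ ∧ |D I W s| ≤ L ρ) → |W 0| ≤ C →
      1 ≤ Gr W 0 / m + μ * W 0 ^ 2 / 2 → η ≤ Pos R W := by
  obtain ⟨ρ, ρ1, h1⟩ := LA1 hm hm1 hM hC
  obtain ⟨μ₀, η₁, a1, a2, h1⟩ := h1 (L ρ) (hL ρ)
  obtain ⟨R, R1, h2⟩ := LA2 hm hm1 hM hC a1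
  obtain ⟨η₂, a3, h2⟩ := h2 (L R) (hL R)
  have pm : ∀ {a b : ℝ} (W : ℂ → ℝ), a ≤ b → Pos a W ≤ Pos b W := fun W h =>
    measureReal_mono (fun s hs => ⟨hs.1.trans h, hs.2⟩) (pos_fin _ _)
  refine ⟨max ρ R, min η₁ η₂, le_max_of_le_left ρ1, lt_min a2 a3,
    fun W τ μ h μ0 μ1 hD h0 hn => ?_⟩
  rcases le_total μ μ₀ with k | k
  · exact (min_le_left _ _).trans ((h1 W τ μ (h.mono fun s hs => hs.trans (le_max_left _ _)) μ0 k
      (fun s => hD ρ s (le_max_left _ _)) h0 hn).trans (pm W (le_max_left _ _)))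
  · exact (min_le_right _ _).trans ((h2 W τ μ (h.mono fun s hs => hs.trans (le_max_right _ _)) k μ1
      (fun s => hD R s (le_max_right _ _)) h0 hn).trans (pm W (le_max_right _ _)))

theorem Q_bounds (hm : 0 < m) (hl : 0 ≤ l) (h1 : m ≤ σ z) (h2 : σ z ≤ M) (h3 : w z * σ z = 1) :
    0 < w z ∧ Gr u z ≤ M * Q u w l z ∧ l * u z ^ 2 / 2 ≤ Q u w l z ∧
      Q u w l z ≤ Gr u z / m + l * u z ^ 2 / 2 := by
  have a0 : 0 < σ z := by linarith
  have a1 : 0 < w z := (mul_pos_iff_of_pos_right a0).1 (by rw [h3]; exact one_pos)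
  have a2 := Gr_nonneg u z
  have a3 : 0 ≤ l * u z ^ 2 / 2 := by positivity
  have a4 := mul_nonneg a1.le a2
  rw [Q_eq]
  refine ⟨a1, ?_, by linarith, add_le_add_left ?_ _⟩
  · calc Gr u z = σ z * (w z * Gr u z) := by rw [← mul_assoc, mul_comm (σ z), h3, one_mul]
      _ ≤ _ := mul_le_mul h2 (by linarith) a4 (by linarith)
  · rw [le_div_iff₀ hm]
    nlinarith [mul_le_mul_of_nonneg_left h1 a4]

theorem D_sq_le {v : ℂ} (hv : v = 1 ∨ v = I) : D v u z ^ 2 ≤ Gr u z := by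
  rcases hv with rfl | rfl <;> simp only [Gr] <;> nlinarith [sq_nonneg (D 1 u z), sq_nonneg (D I u z)]

theorem Con.maj {q : ℂ → ℝ} {b E : ℝ} (h : Con q b z₀ r y x) (h0 : 0 ≤ q y) (hz : ‖z - z₀‖ ≤ r)
    (hE : b * ‖z - x‖ ^ 2 - b * ‖y - x‖ ^ 2 ≤ E) : q z ≤ q y * Real.exp E := by
  have h1 := mul_le_mul_of_nonneg_right (h.2.2 z hz) (Real.exp_pos (b * ‖z - x‖ ^ 2)).le
  rw [mul_assoc, mul_assoc, ← Real.exp_add, ← Real.exp_add, neg_mul, neg_add_cancel,
    Real.exp_zero, mul_one] at h1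
  exact h1.trans (mul_le_mul_of_nonneg_left (Real.exp_le_exp.2 (by linarith)) h0)

/-- At a contact point with a large slope the function is small against its gradient. -/
theorem seg (hm : 0 < m) (hM : 1 ≤ M) (h : Sol u σ l m M z₀ r)
    (hw : ∀ s, ‖s - z₀‖ ≤ r → w s * σ s = 1) (hc : Con (Q u w l) (M * l) z₀ r y x)
    (hd : ‖y - x‖ ≤ r / 4) {S k : ℝ} (hS : 0 < S) (hS2 : S ^ 2 = Q u w l y) (hk : 0 < k)
    (hk2 : k ^ 2 = l) (hp : k ≤ 2 * (M * l) * ‖y - x‖) :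
    2 * (M * l) * ‖y - x‖ * |u y| ≤ 24 * M * S := by
  set d := ‖y - x‖ with hd'
  have l0 : 0 < l := by rw [← hk2]; positivity
  have b0 : 0 < M * l := by positivity
  have d0 : 0 < d := by
    by_contra e
    nlinarith [norm_nonneg (y - x)]
  set γ := M * l * d ^ 2 / 2 with hγ
  have γ0 : 0 < γ := by positivity
  have key : ∀ t ∈ Icc (0 : ℝ) 1, ‖y + t • (x - y) - z₀‖ ≤ r ∧
      Q u w l (y + t • (x - y)) ≤ (S * Real.exp (-γ * t)) ^ 2 := fun t ht => by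
    have e : ‖y + t • (x - y) - x‖ = (1 - t) * d := by
      rw [show y + t • (x - y) - x = (1 - t) • (y - x) by module, norm_smul,
        Real.norm_of_nonneg (by linarith [ht.2])]
    have e1 : ‖y + t • (x - y) - z₀‖ ≤ r := by
      nlinarith [norm_sub_le_norm_sub_add_norm_sub (y + t • (x - y)) x z₀, hc.1, ht.1]
    refine ⟨e1, ?_⟩
    rw [mul_pow, hS2, ← Real.exp_nat_mul]
    refine hc.maj (by rw [← hS2]; positivity) e1 ?_
    rw [e, hγ]
    push_cast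
    nlinarith [mul_nonneg (mul_nonneg ht.1 (sub_nonneg.2 ht.2)) (mul_pos b0 (pow_pos d0 2)).le]
  have h1 := image_norm_le_of_norm_deriv_right_le_deriv_boundary
    (f := fun t : ℝ => u (y + t • (x - y)) - u y) (a := 0) (b := 1)
    (fun t _ => ((line h.hW y (x - y) t).sub_const _).continuousAt.continuousWithinAt)
    (fun t _ => ((line h.hW y (x - y) t).sub_const _).hasDerivWithinAt)
    (B := fun t => 2 * d * M * S / γ * (1 - Real.exp (-γ * t)))
    (B' := fun t => 2 * d * (M * (S * Real.exp (-γ * t)))) (by simp)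
    (fun t => ((((hasDerivAt_id t).const_mul (-γ)).exp.const_sub 1).const_mul _).congr_deriv (by
      simp only [id]; field_simp))
    (fun t ht => by
      obtain ⟨k1, k2⟩ := key t ⟨ht.1, ht.2.le⟩
      obtain ⟨b1, b2, -, -⟩ := h.bd _ k1
      have k3 := (Q_bounds (u := u) hm l0.le b1 b2 (hw _ k1)).2.1
      have k4 : ∀ v, v = 1 ∨ v = I →
          |D v u (y + t • (x - y))| ≤ M * (S * Real.exp (-γ * t)) := fun v hv =>
        abs_le_of_sq_le_sq ((D_sq_le hv).trans (k3.trans (by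
          rw [mul_pow]
          exact mul_le_mul (by nlinarith) k2 (by nlinarith [Gr_nonneg u (y + t • (x - y))])
            (sq_nonneg _)))) (by positivity)
      have := abs_D_le (k4 1 (.inl rfl)) (k4 I (.inr rfl)) (x - y)
      rwa [norm_sub_rev x y] at this) (right_mem_Icc.2 zero_le_one)
  obtain ⟨k1, k2⟩ := key 1 (right_mem_Icc.2 zero_le_one)
  simp only [one_smul, add_sub_cancel, mul_one, Real.norm_eq_abs] at h1 k1 k2
  obtain ⟨b1, b2, -, -⟩ := h.bd _ k1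
  have k3 := (Q_bounds (u := u) hm l0.le b1 b2 (hw _ k1)).2.2.1
  have k4 : |k * u x| ≤ 2 * (S * Real.exp (-γ)) :=
    abs_le_of_sq_le_sq (by rw [mul_pow, hk2]; nlinarith [sq_nonneg (S * Real.exp (-γ))])
      (by positivity)
  have k5 : γ * Real.exp (-γ) ≤ 1 := by
    rw [Real.exp_neg, mul_inv_le_iff₀ (Real.exp_pos _)]
    linarith [Real.add_one_le_exp γ]
  rw [abs_mul, abs_of_pos hk] at k4
  have k6 : γ * |u x - u y| ≤ 2 * d * M * S := by
    rw [← le_div_iff₀' γ0]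
    exact h1.trans (mul_le_of_le_one_right (by positivity) (by linarith [Real.exp_pos (-γ)]))
  have k7 : γ * (k * |u x|) ≤ 2 * S := by
    nlinarith [mul_le_mul_of_nonneg_left k4 γ0.le, mul_le_mul_of_nonneg_left k5 hS.le]
  have k8 : 1 ≤ 2 * M * k * d := le_of_mul_le_mul_left (by rw [← hk2] at hp; linarith) hk
  have k9 : γ * |u x| ≤ 4 * M * d * S := by
    nlinarith [mul_le_mul_of_nonneg_left k8 (mul_nonneg γ0.le (abs_nonneg (u x))),
      mul_le_mul_of_nonneg_left k7 (show 0 ≤ 2 * M * d by positivity)]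
  have k10 : |u y| ≤ |u x| + |u x - u y| := by
    linarith [abs_sub_abs_le_abs_sub (u y) (u x), abs_sub_comm (u x) (u y)]
  refine le_of_mul_le_mul_left ?_ d0
  have k11 : d * (2 * (M * l) * d * |u y|) = 4 * (γ * |u y|) := by rw [hγ]; ring
  linarith [mul_le_mul_of_nonneg_left k10 γ0.le]

/-- Near a contact point the positivity set has positive density. -/
theorem at_contact (hm : 0 < m) (hm1 : m ≤ 1) (hM : 1 ≤ M) : ∃ R η : ℝ, 0 < η ∧
    ∀ (u σ w : ℂ → ℝ) (l k r : ℝ) (z₀ y x : ℂ), Sol u σ l m M z₀ r →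
      (∀ s, ‖s - z₀‖ ≤ r → w s * σ s = 1) → Con (Q u w l) (M * l) z₀ r y x → 0 < Q u w l y →
      ‖y - x‖ ≤ r / 4 → 1 ≤ k → k ^ 2 = l → R ≤ k * (r / 2) →
      ∃ s, 0 < s ∧ s ≤ r / 2 ∧ η * s ^ 2 ≤ volume.real {z | ‖z - y‖ ≤ s ∧ 0 < u z} := by
  obtain ⟨R, η, R1, η0, H⟩ := LA hm hm1 (show 0 ≤ M by linarith) (C := 24 * M) (by linarith)
    (fun ρ => 1 + M * Real.exp (ρ + M * ρ ^ 2)) fun ρ => by positivity
  refine ⟨R, η / R ^ 2, by positivity, fun u σ w l k r z₀ y x h hw hc h0 hd k1 k2 hR => ?_⟩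
  have hu := h.hW
  have l0 : 0 < l := by rw [← k2]; positivity
  obtain ⟨S, S0, S2⟩ : ∃ S, 0 < S ∧ S ^ 2 = Q u w l y :=
    ⟨√(Q u w l y), Real.sqrt_pos.2 h0, Real.sq_sqrt h0.le⟩
  obtain ⟨κ, κ1, κ2, κ3⟩ : ∃ κ, k ≤ κ ∧ 2 * (M * l) * ‖y - x‖ ≤ κ ∧
      (κ = k ∨ κ = 2 * (M * l) * ‖y - x‖) :=
    ⟨max _ _, le_max_left _ _, le_max_right _ _, max_choice _ _⟩
  have κ0 : 0 < κ := by linarith
  obtain ⟨t, t0, t1⟩ : ∃ t, 0 < t ∧ t * κ = 1 := ⟨κ⁻¹, inv_pos.2 κ0, inv_mul_cancel₀ κ0.ne'⟩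
  have t2 : t * k ≤ 1 := by nlinarith
  have t3 : t ≤ 1 := by nlinarith
  have t4 : l * t ^ 2 ≤ 1 := by rw [← k2]; nlinarith [mul_pos t0 (show 0 < k by linarith)]
  have t5 : t * R ≤ r / 2 := by nlinarith [norm_nonneg (y - x)]
  have n1 : ∀ s : ℂ, ‖y + t • s - y‖ = t * ‖s‖ := fun s => by
    rw [add_sub_cancel_left, norm_smul, Real.norm_of_nonneg t0.le]
  have n2 : ∀ s : ℂ, ‖s - 0‖ ≤ R → ‖y + t • s - z₀‖ ≤ r := fun s hs => by
    rw [sub_zero] at hs
    linarith [norm_sub_le_norm_sub_add_norm_sub (y + t • s) y z₀, n1 s, hc.1,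
      norm_sub_le_norm_sub_add_norm_sub y x z₀, mul_le_mul_of_nonneg_left hs t0.le,
      norm_nonneg (y - x)]
  have e1 : ∀ v s, D v (fun s => κ / S * Af y t u s) s = D v u (y + t • s) / S := fun v s => by
    rw [D_cmul (smAf hu y t), D_Af hu]
    simp only [Af]
    rw [← mul_assoc, div_mul_eq_mul_div, mul_comm κ, t1]
    ring
  obtain ⟨y1, y2, -, -⟩ := h.bd y hc.2.1
  obtain ⟨-, -, y3, y4⟩ := Q_bounds (u := u) hm l0.le y1 y2 (hw y hc.2.1)
  have e2 : l * t ^ 2 * (κ / S * u y) ^ 2 = l * u y ^ 2 / S ^ 2 := by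
    rw [show l * t ^ 2 * (κ / S * u y) ^ 2 = (t * κ) ^ 2 * (l * u y ^ 2 / S ^ 2) by ring, t1]
    ring
  have key := H (fun s => κ / S * Af y t u s) (Af y t σ) (l * t ^ 2)
    ⟨contDiff_const.mul (smAf hu y t), smAf h.hτ y t, fun s hs => by
      obtain ⟨a1, a2, a3, a4⟩ := h.bd _ (n2 s hs)
      simp only [D_Af h.hτ, Af, abs_mul, abs_of_pos t0]
      exact ⟨a1, a2, (mul_le_of_le_one_left (abs_nonneg _) t3).trans a3,
        (mul_le_of_le_one_left (abs_nonneg _) t3).trans a4⟩, fun s hs => by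
      have c : ContinuousAt (fun s : ℂ => y + t • s) s := by fun_prop
      filter_upwards [c.eventually (h.eq _ (n2 s hs))] with p hp
      rw [Lap_cmul (smAf hu y t), Lap_Af hu, hp]
      simp only [Af]
      ring⟩ (by positivity) t4
    (fun ρ s hρ hs => by
      have a0 := n2 s (hs.trans hρ)
      obtain ⟨a1, a2, -, -⟩ := h.bd _ a0
      have a3 := (Q_bounds (u := u) hm l0.le a1 a2 (hw _ a0)).2.1
      rw [sub_zero] at hs
      have a4 := hc.maj h0.le a0 (E := ρ + M * ρ ^ 2) (by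
        have b1 : ‖y + t • s - x‖ ≤ t * ρ + ‖y - x‖ := by
          linarith [norm_sub_le_norm_sub_add_norm_sub (y + t • s) y x, n1 s,
            mul_le_mul_of_nonneg_left hs t0.le]
        have b2 := mul_le_mul_of_nonneg_left (pow_le_pow_left₀ (norm_nonneg _) b1 2)
          (show 0 ≤ M * l by positivity)
        have b3 := (norm_nonneg _).trans hs
        nlinarith [mul_le_mul_of_nonneg_left κ2 (mul_nonneg t0.le b3),
          mul_le_mul_of_nonneg_left t4 (show 0 ≤ M * ρ ^ 2 by positivity)])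
      have a5 : ∀ v, v = 1 ∨ v = I → |D v (fun s => κ / S * Af y t u s) s| ≤
          1 + M * Real.exp (ρ + M * ρ ^ 2) := fun v hv => by
        have b1 : (D v u (y + t • s) / S) ^ 2 ≤ M * Real.exp (ρ + M * ρ ^ 2) := by
          rw [div_pow, div_le_iff₀ (by positivity), S2]
          linarith [D_sq_le (u := u) (z := y + t • s) hv,
            mul_le_mul_of_nonneg_left a4 (show 0 ≤ M by linarith)]
        rw [e1]
        refine abs_le_of_sq_le_sq (b1.trans ?_) (by positivity)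
        nlinarith [show 0 ≤ M * Real.exp (ρ + M * ρ ^ 2) by positivity]
      exact ⟨a5 1 (.inl rfl), a5 I (.inr rfl)⟩)
    (by
      simp only [Af, smul_zero, add_zero]
      rcases κ3 with e | e
      · refine abs_le_of_sq_le_sq ?_ (by linarith)
        rw [e, mul_pow, div_pow, k2, div_mul_eq_mul_div, div_le_iff₀ (by positivity), S2]
        nlinarith [mul_le_mul_of_nonneg_left (show 1 ≤ M ^ 2 by nlinarith) h0.le]
      · rw [abs_mul, abs_of_pos (by positivity), div_mul_eq_mul_div, div_le_iff₀ S0, e]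
        exact seg hm hM h hw hc hd S0 S2 (by linarith) k2 (e ▸ κ1))
    (by
      simp only [Gr, e1] at y4 ⊢
      simp only [Af, smul_zero, add_zero]
      rw [e2, ← S2] at *
      have : (1 : ℝ) = S ^ 2 / S ^ 2 := by field_simp
      rw [this]
      refine (div_le_div_of_nonneg_right y4 (sq_nonneg S)).trans (le_of_eq ?_)
      field_simp)
  refine ⟨t * R, by positivity, t5, ?_⟩
  have e3 : Pos R (fun s => κ / S * Af y t u s) = Pos R (Af y t u) := by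
    simp only [Pos, mul_pos_iff_of_pos_left (div_pos κ0 S0)]
  rw [e3, Pos_Af t0, le_inv_mul_iff₀ (by positivity)] at key
  refine le_trans (le_of_eq ?_) key
  field_simp

end Pool.Agent.Lib.MP_a52643_an.QS
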